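import Mathlib

/-!
# Weakly tight systems (for the disproof of the Gyárfás–Lehel conjecture, MP_f34ea0_co)

A `Sys J P S X I h q m` is a pair of dual families over a point set `P` divided into sides
`side : P → J`: the transversals `sg s : J → P` (`s : S`) and the blocks `bl x` (`x : X`), with
* every transversal meets every block (`meet`);
* every set hitting all the transversals has at least `h` points (`hit1`);
* every set hitting all the blocks has at least `|J|` points (`hit2`);
* if a set `Z` of exactly `|J|` points hits all the blocks, then the transversals avoiding `Z`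
  still need at least `h - 1` points to be hit (`hit3`);
* every block can be completed to a family of `|I|` blocks that covers every side exactly `m` times
  (`comp`, `comp0`, `bal`), where `|J| m = |I| h`.
-/

set_option autoImplicit false

namespace Pool.Agent.GL

open Finset Classical

/-- A weakly tight balanced system. -/
structure Sys (J P S X I : Type) [Fintype J] [Fintype P] [Fintype I] (h q m : ℕ) where
  /-- the side of a point -/
  side : P → J
  /-- the transversals -/
  sg : S → J → P
  /-- the blocks -/
  bl : X → P → Prop
  /-- the companions of a block -/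
  comp : X → I → X
  /-- the index of a block among its companions -/
  i0 : I
  side_sg : ∀ s j, side (sg s j) = j
  meet : ∀ s x, ∃ j, bl x (sg s j)
  hit1 : ∀ M : Finset P, (∀ s, ∃ j, sg s j ∈ M) → h ≤ M.card
  hit2 : ∀ Z : Finset P, (∀ x, ∃ p ∈ Z, bl x p) → Fintype.card J ≤ Z.card
  hit3 : ∀ Z : Finset P, (∀ x, ∃ p ∈ Z, bl x p) → Z.card = Fintype.card J →
    ∀ M : Finset P, (∀ s, (∀ j, sg s j ∉ Z) → ∃ j, sg s j ∈ M) → h ≤ M.card + 1
  cov : ∀ p, ∃ x, bl x p
  large : ∀ j, q ≤ (univ.filter (fun p => side p = j)).card
  comp0 : ∀ x, comp x i0 = x
  bal : ∀ x j, ∑ i, (univ.filter (fun p => bl (comp x i) p ∧ side p = j)).card = m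
  count : Fintype.card J * m = Fintype.card I * h

/-- There is a weakly tight balanced system with `k` sides and hitting number `h`, all of whose
sides have at least `q` points. -/
def Good (k h q : ℕ) : Prop :=
  ∃ (J P S X I : Type) (_ : Fintype J) (_ : Fintype P) (_ : Fintype I) (m : ℕ),
    Fintype.card J = k ∧ Nonempty (Sys J P S X I h q m)

end Pool.Agent.GL
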