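import Mathlib
import Pool.Agent.GL.Defs

set_option autoImplicit false

namespace Pool.Agent.GL

open Finset Classical

variable {J P S X I : Type} [Fintype J] [Fintype P] [Fintype I] {h q m : ℕ}

theorem Sys.copy_bound (Y : Sys J P S X I h q m) (d : P → ℕ) (w : ℕ)
    (hd : ∀ s, ∃ j, 0 < d (Y.sg s j)) :
    h + (univ.filter (fun p => w < d p)).card * w ≤ ∑ p, d p := by
  have h1 : h ≤ (univ.filter (fun p => 0 < d p)).card := by
    apply Y.hit1
    intro s
    obtain ⟨j, hj⟩ := hd s
    exact ⟨j, by simpa using hj⟩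
  have h2 : (univ.filter (fun p => 0 < d p)).card + (univ.filter (fun p => w < d p)).card * w
      ≤ ∑ p, d p := by
    rw [card_filter, card_filter, sum_mul, ← sum_add_distrib]
    apply sum_le_sum
    intro p _
    split_ifs <;> omega
  omega

theorem Sys.copy_dead (Y : Sys J P S X I h q m) (d : P → ℕ) (N : ℕ)
    (hd : ∀ s, ∃ j, 0 < d (Y.sg s j)) (Z : Finset P) (hZ : ∀ x, ∃ p ∈ Z, Y.bl x p)
    (hc : Z.card = Fintype.card J) (hdead : ∀ p ∈ Z, d p = N) :
    Fintype.card J * N + h ≤ ∑ p, d p + 1 := by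
  have h1 : h ≤ ((univ.filter (fun p => 0 < d p)) \ Z).card + 1 := by
    apply Y.hit3 Z hZ hc
    intro s hs
    obtain ⟨j, hj⟩ := hd s
    exact ⟨j, by simpa using ⟨hj, hs j⟩⟩
  have h2 : ∑ p ∈ Z, d p = Fintype.card J * N := by
    rw [sum_congr rfl hdead, sum_const, hc, smul_eq_mul]
  have h3 : ((univ.filter (fun p => 0 < d p)) \ Z).card ≤
      ∑ p ∈ (univ.filter (fun p => 0 < d p)) \ Z, d p := by
    rw [card_eq_sum_ones]
    apply sum_le_sum
    intro p hp
    simp only [mem_sdiff, mem_filter, mem_univ, true_and] at hp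
    exact hp.1
  have h4 : ∑ p ∈ Z, d p + ∑ p ∈ (univ.filter (fun p => 0 < d p)) \ Z, d p ≤ ∑ p, d p := by
    rw [← sum_union disjoint_sdiff]
    apply sum_le_sum_of_subset
    exact subset_univ _
  omega

/-- the few heavy tokens -/
theorem Sys.few_heavy (Y : Sys J P S X I h q m) {C : Type} [Fintype C] (d : C → P → ℕ) (w K N : ℕ)
    (hd : ∀ c s, ∃ j, 0 < d c (Y.sg s j)) (hN : N = w + K) (hw : Fintype.card J * K ≤ w)
    (hC : Fintype.card C * h = Fintype.card J * N)
    (hT : ∑ c, ∑ p, d c p + 2 ≤ 2 * (Fintype.card J * N)) :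
    ∑ c, (univ.filter (fun p => w < d c p)).card ≤ Fintype.card J := by
  set k := Fintype.card J
  set n := ∑ c, (univ.filter (fun p => w < d c p)).card with hn
  have h1 : Fintype.card C * h + n * w ≤ ∑ c, ∑ p, d c p := by
    calc Fintype.card C * h + n * w
        = ∑ c : C, (h + (univ.filter (fun p => w < d c p)).card * w) := by
          rw [sum_add_distrib, hn, sum_mul]; simp
      _ ≤ _ := sum_le_sum (fun c _ => Y.copy_bound (d c) w (hd c))
  by_contra hlt
  push Not at hlt
  have h2 : (k + 1) * w ≤ n * w := Nat.mul_le_mul_right _ hlt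
  have h3 : (k + 1) * w = k * w + w := by ring
  have h4 : k * N = k * w + k * K := by rw [hN]; ring
  omega

theorem Sys.choose_copy (Y : Sys J P S X I h q m) {C : Type} [Fintype C] (d : C → P → ℕ)
    (w K N : ℕ) (hd : ∀ c s, ∃ j, 0 < d c (Y.sg s j)) (hN : N = w + K) (hK : 0 < K)
    (hw : Fintype.card J * K ≤ w) (hk : 0 < Fintype.card J) (hh : 0 < h)
    (hdN : ∀ c p, d c p ≤ N)
    (hC : Fintype.card C * h = Fintype.card J * N)
    (hT : ∑ c, ∑ p, d c p + 2 ≤ 2 * (Fintype.card J * N)) :
    ∃ (c0 : C) (v0 : P), ∀ c, ∃ x, ∀ p, Y.bl x p →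
      d c p < N ∧ (w < d c p → c = c0 ∧ p = v0) := by
  have hfew := Y.few_heavy d w K N hd hN hw hC hT
  -- nonemptiness
  have hS : Nonempty S := by
    by_contra hne
    have := Y.hit1 ∅ (fun s => (hne ⟨s⟩).elim)
    simp at this
    omega
  have hJ : Nonempty J := Fintype.card_pos_iff.1 hk
  obtain ⟨s⟩ := hS
  obtain ⟨j⟩ := hJ
  obtain ⟨x1, -⟩ := Y.cov (Y.sg s j)
  have hCne : Nonempty C := by
    by_contra hne
    rw [not_nonempty_iff] at hne
    have : Fintype.card C = 0 := Fintype.card_eq_zero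
    rw [this, zero_mul] at hC
    have : 0 < Fintype.card J * N := Nat.mul_pos hk (by omega)
    omega
  obtain ⟨c1⟩ := hCne
  by_cases hcrit : ∃ c, ∀ x, ∃ p, w < d c p ∧ Y.bl x p
  · obtain ⟨c0, hc0⟩ := hcrit
    set Z := univ.filter (fun p => w < d c0 p) with hZ
    have hZcov : ∀ x, ∃ p ∈ Z, Y.bl x p := by
      intro x
      obtain ⟨p, hp, hb⟩ := hc0 x
      exact ⟨p, by simpa [hZ] using hp, hb⟩
    have hk2 : Fintype.card J ≤ Z.card := Y.hit2 Z hZcov
    have hsplit : ∑ c, (univ.filter (fun p => w < d c p)).card =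
        Z.card + ∑ c ∈ univ.erase c0, (univ.filter (fun p => w < d c p)).card :=
      (add_sum_erase univ (fun c => (univ.filter (fun p => w < d c p)).card) (mem_univ c0)).symm
    have hZk : Z.card = Fintype.card J := by omega
    have hzero : ∀ c, c ≠ c0 → (univ.filter (fun p => w < d c p)).card = 0 := by
      intro c hc
      have : (univ.filter (fun p => w < d c p)).card ≤
          ∑ c ∈ univ.erase c0, (univ.filter (fun p => w < d c p)).card :=
        single_le_sum (f := fun c => (univ.filter (fun p => w < d c p)).card)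
          (fun _ _ => Nat.zero_le _) (by simpa using hc)
      omega
    have hnd : ∃ v0 ∈ Z, d c0 v0 < N := by
      by_contra hno
      push Not at hno
      have hdead : ∀ p ∈ Z, d c0 p = N := fun p hp => le_antisymm (hdN _ _) (hno p hp)
      have e1 := Y.copy_dead (d c0) N (hd c0) Z hZcov hZk hdead
      have e2 : ∑ c, ∑ p, d c p = ∑ p, d c0 p + ∑ c ∈ univ.erase c0, ∑ p, d c p :=
        (add_sum_erase univ (fun c => ∑ p, d c p) (mem_univ c0)).symm
      have e3 : (Fintype.card C - 1) * h ≤ ∑ c ∈ univ.erase c0, ∑ p, d c p := by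
        calc (Fintype.card C - 1) * h = ∑ c ∈ univ.erase c0, h := by
              rw [sum_const, card_erase_of_mem (mem_univ _), smul_eq_mul]; rfl
          _ ≤ _ := sum_le_sum (fun c _ => by
              have := Y.copy_bound (d c) w (hd c)
              omega)
      have e4 : 0 < Fintype.card C := Fintype.card_pos_iff.2 ⟨c0⟩
      have e5 : (Fintype.card C - 1) * h + h = Fintype.card C * h := by
        rw [← Nat.succ_mul]; congr 1; omega
      omega
    obtain ⟨v0, hv0, hv0N⟩ := hnd
    have hx : ∃ x, ∀ p ∈ Z.erase v0, ¬ Y.bl x p := by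
      by_contra hno
      push Not at hno
      have := Y.hit2 (Z.erase v0) hno
      rw [card_erase_of_mem hv0] at this
      omega
    obtain ⟨x, hx⟩ := hx
    refine ⟨c0, v0, fun c => ?_⟩
    by_cases hc : c = c0
    · subst hc
      refine ⟨x, fun p hp => ?_⟩
      by_cases hpw : w < d c p
      · have hpv : p = v0 := by
          by_contra hne
          exact hx p (mem_erase.2 ⟨hne, by simpa [hZ] using hpw⟩) hp
        exact ⟨hpv ▸ hv0N, fun _ => ⟨rfl, hpv⟩⟩
      · exact ⟨by omega, fun h => absurd h hpw⟩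
    · refine ⟨x1, fun p _ => ?_⟩
      have hz := hzero c hc
      rw [card_eq_zero, filter_eq_empty_iff] at hz
      have := hz (mem_univ p)
      exact ⟨by omega, fun h => absurd h this⟩
  · push Not at hcrit
    refine ⟨c1, Y.sg s j, fun c => ?_⟩
    obtain ⟨x, hx⟩ := hcrit c
    refine ⟨x, fun p hp => ?_⟩
    have : ¬ w < d c p := fun hlt => hx p hlt hp
    exact ⟨by omega, fun h => absurd h this⟩

end Pool.Agent.GL
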