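import Mathlib
import Pool.Agent.GL.Defs

set_option autoImplicit false

namespace Pool.Agent.GL

open Finset Classical

variable {J P S X I : Type} [Fintype J] [Fintype P] [Fintype I] {h q m : ℕ}

/-- Extending a choice of few blocks to a balanced choice. -/
theorem Sys.extend (Y : Sys J P S X I h q m) (t : ℕ) (Sp : Finset (Fin t × I))
    (hSp : Sp.card ≤ t) (x0 : Fin t × I → X) :
    ∃ y : Fin t × I → X, (∀ c ∈ Sp, y c = x0 c) ∧
      ∀ j, ∑ c, (univ.filter (fun p => Y.bl (y c) p ∧ Y.side p = j)).card = t * m := by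
  have hcard : Fintype.card {c // c ∈ Sp} ≤ Fintype.card (Fin t) := by simpa using hSp
  obtain ⟨emb⟩ := Function.Embedding.nonempty_of_card_le hcard
  let f : Fin t × I → Fin t × I := fun c => if hc : c ∈ Sp then (emb ⟨c, hc⟩, Y.i0) else c
  have hf : Set.InjOn f (Sp : Set (Fin t × I)) := by
    intro a ha b hb hab
    have ha' : a ∈ Sp := ha
    have hb' : b ∈ Sp := hb
    simp only [f, dif_pos ha', dif_pos hb'] at hab
    have := emb.injective (Prod.mk.inj hab).1
    exact congrArg Subtype.val this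
  obtain ⟨g, hg⟩ := Finset.exists_equiv_extend_of_card_eq (t := (univ : Finset (Fin t × I)))
    (by simp) (s := Sp) (f := f) (subset_univ _) hf
  let g' : (Fin t × I) ≃ (Fin t × I) :=
    g.trans (Equiv.subtypeUnivEquiv (fun x => mem_univ x))
  have hg' : ∀ c, g' c = (g c : Fin t × I) := fun c => rfl
  refine ⟨fun c => Y.comp (x0 (g'.symm ((g' c).1, Y.i0))) (g' c).2, ?_, ?_⟩
  · intro c hc
    have e1 : g' c = (emb ⟨c, hc⟩, Y.i0) := by
      rw [hg', hg c hc]; simp only [f, dif_pos hc]
    have e2 : ((g' c).1, Y.i0) = g' c := by rw [e1]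
    simp only
    rw [e2, Equiv.symm_apply_apply, e1, Y.comp0]
  · intro j
    let G : Fin t × I → ℕ := fun d => (univ.filter (fun p =>
        Y.bl (Y.comp (x0 (g'.symm (d.1, Y.i0))) d.2) p ∧ Y.side p = j)).card
    calc ∑ c, (univ.filter (fun p =>
        Y.bl (Y.comp (x0 (g'.symm ((g' c).1, Y.i0))) (g' c).2) p ∧ Y.side p = j)).card
        = ∑ c, G (g' c) := rfl
      _ = ∑ d, G d := Equiv.sum_comp g' G
      _ = ∑ a, ∑ i, G (a, i) := Fintype.sum_prod_type _
      _ = ∑ a : Fin t, m := sum_congr rfl (fun a _ => by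
            simpa only [G] using Y.bal (x0 (g'.symm (a, Y.i0))) j)
      _ = t * m := by simp

end Pool.Agent.GL
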