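import Mathlib

set_option autoImplicit false

namespace Pool.Agent.GL

open Finset Classical

/-- A perfect matching avoiding few forbidden pairs. -/
theorem hall_avoid {α β : Type} [Fintype α] [Fintype β] (F : α → β → Prop) (N K : ℕ)
    (hα : Fintype.card α = N) (hβ : Fintype.card β = N)
    (h1 : ∀ a, ∃ b, ¬ F a b) (h2 : ∀ b, ∃ a, ¬ F a b)
    (h3 : ∀ a a', N < (univ.filter (fun b => F a b)).card + K →
      N < (univ.filter (fun b => F a' b)).card + K → a = a')
    (h4 : ∀ b b', N < (univ.filter (fun a => F a b)).card + K →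
      N < (univ.filter (fun a => F a b')).card + K → b = b')
    (h5 : (univ.filter (fun x : α × β => F x.1 x.2)).card < (K + 1) * (N - K)) :
    ∃ φ : α → β, Function.Bijective φ ∧ ∀ a, ¬ F a (φ a) := by
  have key : ∀ s : Finset α, s.card ≤ (s.biUnion (fun a => univ.filter (fun b => ¬ F a b))).card := by
    intro s
    by_contra hlt
    push Not at hlt
    set U := s.biUnion (fun a => univ.filter (fun b => ¬ F a b)) with hU
    have hF : ∀ a ∈ s, ∀ b ∈ Uᶜ, F a b := by
      intro a ha b hb
      by_contra hn
      rw [mem_compl] at hb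
      exact hb (by rw [hU, mem_biUnion]; exact ⟨a, ha, by simpa using hn⟩)
    have hc : Uᶜ.card = N - U.card := by rw [card_compl, hβ]
    have hs : s.card ≤ N := hα ▸ card_le_univ s
    have hUN : U.card ≤ N := hβ ▸ card_le_univ U
    have hsum : N + 1 ≤ s.card + Uᶜ.card := by omega
    -- two elements in `s`
    have hs2 : 1 < s.card := by
      rcases Nat.lt_or_ge 1 s.card with h | h
      · exact h
      · exfalso
        have hs1 : 0 < s.card := by omega
        obtain ⟨a, ha⟩ := card_pos.1 hs1
        obtain ⟨b, hb⟩ := h1 a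
        have : b ∈ U := by rw [hU, mem_biUnion]; exact ⟨a, ha, by simpa using hb⟩
        have : 0 < U.card := card_pos.2 ⟨b, this⟩
        omega
    have hU2 : 1 < Uᶜ.card := by
      rcases Nat.lt_or_ge 1 Uᶜ.card with h | h
      · exact h
      · exfalso
        have hU1 : 0 < Uᶜ.card := by omega
        obtain ⟨b, hb⟩ := card_pos.1 hU1
        obtain ⟨a, ha⟩ := h2 b
        have : s = univ := by
          apply eq_univ_of_card
          omega
        exact ha (hF a (this ▸ mem_univ a) b hb)
    have hUle : Uᶜ.card + K ≤ N := by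
      by_contra hn
      push Not at hn
      obtain ⟨a, ha, a', ha', hne⟩ := one_lt_card.1 hs2
      apply hne
      apply h3
      · refine lt_of_lt_of_le hn (Nat.add_le_add_right (card_le_card ?_) _)
        intro b hb; simpa using hF a ha b hb
      · refine lt_of_lt_of_le hn (Nat.add_le_add_right (card_le_card ?_) _)
        intro b hb; simpa using hF a' ha' b hb
    have hsle : s.card + K ≤ N := by
      by_contra hn
      push Not at hn
      obtain ⟨b, hb, b', hb', hne⟩ := one_lt_card.1 hU2
      apply hne
      apply h4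
      · refine lt_of_lt_of_le hn (Nat.add_le_add_right (card_le_card ?_) _)
        intro a ha; simpa using hF a ha b hb
      · refine lt_of_lt_of_le hn (Nat.add_le_add_right (card_le_card ?_) _)
        intro a ha; simpa using hF a ha b' hb'
    have hprod : s.card * Uᶜ.card ≤ (univ.filter (fun x : α × β => F x.1 x.2)).card := by
      rw [← card_product]
      apply card_le_card
      rintro ⟨a, b⟩ hab
      rw [mem_product] at hab
      simpa using hF a hab.1 b hab.2
    obtain ⟨w, hw⟩ : ∃ w, N = K + w := ⟨N - K, by omega⟩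
    have e1 : N - K = w := by omega
    rw [e1] at h5
    set x := s.card
    set y := Uᶜ.card
    have hx : K + 1 ≤ x := by omega
    have hxw : x ≤ w := by omega
    have hy : K + w + 1 - x ≤ y := by omega
    obtain ⟨u, hu⟩ : ∃ u, x = K + 1 + u := ⟨x - (K + 1), by omega⟩
    obtain ⟨v, hv⟩ : ∃ v, w = x + v := ⟨w - x, by omega⟩
    have hy' : K + 1 + v ≤ y := by omega
    have : (K + 1) * w ≤ x * y := by
      calc (K + 1) * w = (K + 1) * (K + 1 + u + v) := by rw [hv, hu]
        _ ≤ (K + 1 + u) * (K + 1 + v) := by nlinarith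
        _ = x * (K + 1 + v) := by rw [hu]
        _ ≤ x * y := Nat.mul_le_mul_left _ hy'
    omega
  obtain ⟨f, hf, hft⟩ := (Finset.all_card_le_biUnion_card_iff_exists_injective
    (fun a => univ.filter (fun b => ¬ F a b))).1 key
  refine ⟨f, (Fintype.bijective_iff_injective_and_card f).2 ⟨hf, by rw [hα, hβ]⟩, ?_⟩
  intro a
  have := hft a
  simpa using this

end Pool.Agent.GL
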