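import Mathlib
import Pool.Agent.GL.Defs
import Pool.Agent.GL.Hall
import Pool.Agent.GL.Ext
import Pool.Agent.GL.Copy

set_option autoImplicit false

namespace Pool.Agent.GL

open Finset Classical

theorem card_fib1 {α β γ : Type} [Fintype α] [Fintype β] [Fintype γ] (T : Finset (α × β × γ)) :
    T.card = ∑ c, ∑ b, (univ.filter (fun a => (a, b, c) ∈ T)).card := by
  have h1 : T.card = ∑ x : α × β × γ, if x ∈ T then 1 else 0 := by simp
  rw [h1, Fintype.sum_prod_type]
  simp only [Fintype.sum_prod_type, card_filter]
  calc ∑ a, ∑ b, ∑ c, (if (a, b, c) ∈ T then 1 else 0)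
      = ∑ a, ∑ c, ∑ b, (if (a, b, c) ∈ T then 1 else 0) := sum_congr rfl (fun a _ => sum_comm)
    _ = ∑ c, ∑ a, ∑ b, (if (a, b, c) ∈ T then 1 else 0) := sum_comm
    _ = ∑ c, ∑ b, ∑ a, (if (a, b, c) ∈ T then 1 else 0) := sum_congr rfl (fun c _ => sum_comm)

theorem card_fib2 {α β γ J : Type} [Fintype α] [Fintype β] [Fintype γ] [Fintype J] (side : β → J)
    (T : Finset (α × β × γ)) :
    T.card = ∑ x : J × α, (univ.filter (fun b : β × γ =>
      side b.1 = x.1 ∧ (x.2, b.1, b.2) ∈ T)).card := by
  have h1 : T.card = ∑ x : α × β × γ, if x ∈ T then 1 else 0 := by simp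
  rw [h1, Fintype.sum_prod_type, Fintype.sum_prod_type_right]
  apply sum_congr rfl
  intro a _
  simp only [card_filter]
  rw [sum_comm]
  apply sum_congr rfl
  intro b _
  simp only [ite_and]
  rw [Finset.sum_ite_eq]
  simp

variable {J P S X I : Type} [Fintype J] [Fintype P] [Fintype I] {h q m : ℕ}

theorem Sys.avoid (Y : Sys J P S X I h q m) {L C : Type} [Fintype L] [Fintype C]
    (t N w K : ℕ) (hk : 0 < Fintype.card J) (hh : 0 < h)
    (hK : K = 2 * Fintype.card J) (hL : Fintype.card L = N) (hNw : N = w + K)
    (hcardC : Fintype.card C * h = Fintype.card J * N)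
    (hext : ∀ (Sp : Finset C), Sp.card ≤ t → ∀ x0 : C → X, ∃ y : C → X, (∀ c ∈ Sp, y c = x0 c) ∧
      ∀ j, ∑ c, (univ.filter (fun p => Y.bl (y c) p ∧ Y.side p = j)).card = N)
    (hw : 2 * Fintype.card J * K ≤ w) (hP : (2 * K + 1) * Fintype.card P ≤ N)
    (ht : Fintype.card J + 2 * Fintype.card J * K ≤ t) (hq : 3 * h ≤ q)
    (T : Finset (L × P × C)) (hT : T.card + 2 ≤ 2 * (Fintype.card J * N))
    (hA : ∀ s c, ∃ j l, (l, Y.sg s j, c) ∈ T) :
    ∃ g : J → L → P × C, (∀ j l, Y.side (g j l).1 = j) ∧
      (∀ j l, (l, (g j l).1, (g j l).2) ∉ T) ∧ (∀ s c, ∃ j l, g j l = (Y.sg s j, c)) := by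
  set k := Fintype.card J with hkdef
  -- degrees of tokens
  let d : C → P → ℕ := fun c p => (univ.filter (fun l => (l, p, c) ∈ T)).card
  have hTd : ∑ c, ∑ p, d c p + 2 ≤ 2 * (k * N) := by
    rw [← card_fib1 T]; exact hT
  have hd : ∀ c s, ∃ j, 0 < d c (Y.sg s j) := by
    intro c s
    obtain ⟨j, l, hl⟩ := hA s c
    exact ⟨j, card_pos.2 ⟨l, by simpa using hl⟩⟩
  have hdN : ∀ c p, d c p ≤ N := by
    intro c p
    calc d c p ≤ (univ : Finset (L)).card := card_le_card (filter_subset _ _)
      _ = N := by simp [hL]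
  have hkK : k * K ≤ w := by
    refine le_trans ?_ hw
    rw [mul_assoc]
    omega
  have hfew := Y.few_heavy d w K N hd hNw hkK hcardC hTd
  obtain ⟨c0, v0, hcopy⟩ := Y.choose_copy d w K N hd hNw (by omega) hkK hk hh hdN hcardC hTd
  choose xc hxc using hcopy
  -- copies with heavy tokens
  let ND : Finset C := univ.filter (fun c => ∃ p, w < d c p)
  have hND : ND.card ≤ k := by
    refine le_trans ?_ hfew
    rw [card_filter]
    apply sum_le_sum
    intro c _
    split_ifs with hc
    · obtain ⟨p, hp⟩ := hc
      exact card_pos.2 ⟨p, by simpa using hp⟩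
    · exact Nat.zero_le _
  -- degrees of colours
  let τ : J × L → ℕ := fun x => (univ.filter (fun b : P × C =>
      Y.side b.1 = x.1 ∧ (x.2, b.1, b.2) ∈ T)).card
  have hτsum : T.card = ∑ x, τ x := card_fib2 Y.side T
  let Bad : Finset (J × L) := univ.filter (fun x => w < τ x)
  have hBad : Bad.card ≤ 2 * k := by
    have h1 : Bad.card * (w + 1) ≤ T.card := by
      rw [hτsum]
      calc Bad.card * (w + 1) = ∑ x ∈ Bad, (w + 1) := by rw [sum_const, smul_eq_mul]
        _ ≤ ∑ x ∈ Bad, τ x := sum_le_sum (fun x hx => by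
            simp only [Bad, mem_filter, mem_univ, true_and] at hx; omega)
        _ ≤ ∑ x, τ x := sum_le_sum_of_subset (subset_univ _)
    by_contra hlt
    push Not at hlt
    have h2 : (2 * k + 1) * (w + 1) ≤ Bad.card * (w + 1) := Nat.mul_le_mul_right _ hlt
    have h3 : (2 * k + 1) * (w + 1) = 2 * (k * w) + w + 2 * k + 1 := by ring
    have h4 : k * N = k * w + k * K := by rw [hNw]; ring
    have h5 : 2 * k * K = 2 * (k * K) := by ring
    omega
  -- demands
  let D := ↥(Bad ×ˢ (univ : Finset (Fin K)))
  have hD : Fintype.card D ≤ 2 * k * K := by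
    rw [Fintype.card_coe, card_product, card_univ, Fintype.card_fin]
    exact Nat.mul_le_mul_right _ hBad
  let Av : D → Finset C := fun e => univ.filter (fun c => (¬ ∃ p, w < d c p) ∧
    ∃ p, Y.side p = e.1.1.1 ∧ (e.1.1.2, p, c) ∉ T)
  have hAv : ∀ e, 2 * k * K ≤ (Av e).card := by
    intro e
    obtain ⟨⟨⟨j, l⟩, a⟩, he⟩ := e
    -- free names
    set Fr : Finset (P × C) := univ.filter (fun b =>
      Y.side b.1 = j ∧ (l, b.1, b.2) ∉ T) with hFr
    have h1 : Fintype.card C * (3 * h) ≤
        (univ.filter (fun b : P × C => Y.side b.1 = j)).card := by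
      have : (univ.filter (fun b : P × C => Y.side b.1 = j)) =
          (univ.filter (fun p => Y.side p = j)) ×ˢ (univ : Finset C) := by
        ext b; simp
      rw [this, card_product, card_univ, mul_comm]
      exact Nat.mul_le_mul_right _ (le_trans hq (Y.large j))
    have h2 : (univ.filter (fun b : P × C => Y.side b.1 = j)).card ≤
        Fr.card + τ (j, l) := by
      rw [hFr]
      refine le_trans (card_le_card ?_) (card_union_le _ _)
      intro b hb
      simp only [mem_filter, mem_univ, true_and, mem_union] at hb ⊢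
      by_cases hbT : (l, b.1, b.2) ∈ T
      · exact Or.inr ⟨hb, hbT⟩
      · exact Or.inl ⟨hb, hbT⟩
    have h3 : τ (j, l) ≤ T.card := by
      rw [hτsum]
      exact single_le_sum (f := τ) (fun _ _ => Nat.zero_le _) (mem_univ _)
    have h4 : Fr.card ≤ Fintype.card P *
        ((Av ⟨⟨⟨j, l⟩, a⟩, he⟩).card + ND.card) := by
      have : Fr ⊆ (univ : Finset P) ×ˢ (Av ⟨⟨⟨j, l⟩, a⟩, he⟩ ∪ ND) := by
        intro b hb
        simp only [hFr, mem_filter, mem_univ, true_and] at hb
        simp only [mem_product, mem_univ, true_and, mem_union]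
        by_cases hc : ∃ p, w < d b.2 p
        · exact Or.inr (by simpa [ND] using hc)
        · refine Or.inl ?_
          simp only [Av, mem_filter, mem_univ, true_and]
          exact ⟨hc, b.1, hb.1, hb.2⟩
      refine le_trans (card_le_card this) ?_
      rw [card_product, card_univ]
      exact Nat.mul_le_mul_left _ (card_union_le _ _)
    by_contra hlt
    push Not at hlt
    have h5 : Fintype.card P * ((Av ⟨⟨⟨j, l⟩, a⟩, he⟩).card + ND.card) ≤
        Fintype.card P * (2 * k * K + k) := Nat.mul_le_mul_left _ (by omega)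
    have h6 : Fintype.card P * (2 * k * K + k) = k * ((2 * K + 1) * Fintype.card P) := by ring
    have h7 : k * ((2 * K + 1) * Fintype.card P) ≤ k * N := Nat.mul_le_mul_left _ hP
    have h8 : Fintype.card C * (3 * h) = 3 * (k * N) := by rw [← hcardC]; ring
    omega
  obtain ⟨f, hfinj, hf⟩ := (Finset.all_card_le_biUnion_card_iff_exists_injective Av).1 (by
    intro s
    rcases s.eq_empty_or_nonempty with rfl | ⟨e, he⟩
    · simp
    · calc s.card ≤ Fintype.card D := card_le_univ s
        _ ≤ 2 * k * K := hD
        _ ≤ (Av e).card := hAv e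
        _ ≤ (s.biUnion Av).card := card_le_card (subset_biUnion_of_mem Av he))
  have hf' : ∀ e : D, (¬ ∃ p, w < d (f e) p) ∧
      ∃ p, Y.side p = e.1.1.1 ∧ (e.1.1.2, p, f e) ∉ T := by
    intro e
    have := hf e
    simpa only [Av, mem_filter, mem_univ, true_and] using this
  choose hf1 pd hpd1 hpd2 using hf'
  choose xd hxd using Y.cov
  -- the prescribed blocks
  let x0 : C → X := fun c =>
    if hc : ∃ e, f e = c then xd (pd hc.choose) else xc c
  have hx0f : ∀ e, x0 (f e) = xd (pd e) := by
    intro e
    have hc : ∃ e', f e' = f e := ⟨e, rfl⟩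
    have : hc.choose = e := hfinj hc.choose_spec
    simp only [x0, dif_pos hc, this]
  have hx0n : ∀ c, (∃ p, w < d c p) → x0 c = xc c := by
    intro c hc
    have : ¬ ∃ e, f e = c := by
      rintro ⟨e, rfl⟩
      exact hf1 e hc
    simp only [x0, dif_neg this]
  let Sp : Finset C := ND ∪ univ.image f
  have hSp : Sp.card ≤ t := by
    refine le_trans (card_union_le _ _) ?_
    have : (univ.image f).card ≤ Fintype.card D := card_image_le.trans (by rw [card_univ])
    omega
  obtain ⟨y, hy1, hy2⟩ := hext Sp hSp x0
  have hyf : ∀ e, Y.bl (y (f e)) (pd e) := by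
    intro e
    rw [hy1 _ (mem_union_right _ (mem_image_of_mem _ (mem_univ _))), hx0f]
    exact hxd _
  have hyd : ∀ c p, Y.bl (y c) p → d c p < N ∧ (w < d c p → c = c0 ∧ p = v0) := by
    intro c p hp
    by_cases hc : ∃ p, w < d c p
    · have : c ∈ Sp := mem_union_left _ (by simpa [ND] using hc)
      rw [hy1 c this, hx0n c hc] at hp
      exact hxc c p hp
    · have h1 : ¬ w < d c p := fun hlt => hc ⟨p, hlt⟩
      exact ⟨by omega, fun hlt => absurd hlt h1⟩
  -- the matchings
  have hmatch : ∀ j, ∃ φ : L → {b : P × C // Y.bl (y b.2) b.1 ∧ Y.side b.1 = j},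
      Function.Bijective φ ∧ ∀ l, ¬ (l, (φ l).1.1, (φ l).1.2) ∈ T := by
    intro j
    let β := {b : P × C // Y.bl (y b.2) b.1 ∧ Y.side b.1 = j}
    have hβ : Fintype.card β = N := by
      rw [Fintype.card_subtype, card_filter, Fintype.sum_prod_type_right, ← hy2 j]
      apply sum_congr rfl
      intro c _
      rw [card_filter]
    obtain ⟨F, hF⟩ : ∃ F : L → β → Prop, ∀ l b, F l b ↔ (l, b.1.1, b.1.2) ∈ T :=
      ⟨fun l b => (l, b.1.1, b.1.2) ∈ T, fun _ _ => Iff.rfl⟩
    have hdF : ∀ b : β, (univ.filter (fun a => F a b)).card = d b.1.2 b.1.1 := by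
      intro b
      apply congrArg card
      ext a
      simp [hF]
    have hτF : ∀ l, (univ.filter (fun b => F l b)).card ≤ τ (j, l) := by
      intro l
      rw [← card_map (Function.Embedding.subtype _)]
      apply card_le_card
      intro b hb
      rw [mem_map] at hb
      obtain ⟨b', hb', rfl⟩ := hb
      simp only [mem_filter, mem_univ, true_and] at hb' ⊢
      exact ⟨b'.2.2, (hF _ _).1 hb'⟩
    obtain ⟨φ, hφ1, hφ2⟩ : ∃ φ : L → β, Function.Bijective φ ∧ ∀ a, ¬ F a (φ a) := by
      apply hall_avoid F N K hL hβ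
      · -- every colour has an allowed token
        intro l
        by_cases hl : (j, l) ∈ Bad
        · let e : D := ⟨((j, l), ⟨0, by omega⟩), by simp [hl]⟩
          exact ⟨⟨(pd e, f e), hyf e, hpd1 e⟩, fun hh => hpd2 e ((hF _ _).1 hh)⟩
        · by_contra hno
          push Not at hno
          have h1 : (univ.filter (fun b => F l b)).card = Fintype.card β := by
            rw [← card_univ]
            congr 1
            rw [filter_eq_self]
            exact fun b _ => hno b
          have h2 : ¬ w < τ (j, l) := fun hlt => hl (by simpa [Bad] using hlt)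
          have h3 := hτF l
          omega
      · -- every token has an allowed colour
        intro b
        have h1 := (hyd b.1.2 b.1.1 b.2.1).1
        by_contra hno
        push Not at hno
        have h2 : (univ.filter (fun a => F a b)).card = Fintype.card L := by
          rw [← card_univ]
          congr 1
          rw [filter_eq_self]
          exact fun a _ => hno a
        rw [hdF] at h2
        omega
      · -- colours of large degree: none
        intro l l' hl _
        exfalso
        by_cases hlB : (j, l) ∈ Bad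
        · -- the K free tokens
          let ψ : Fin K → β := fun a =>
            ⟨(pd ⟨((j, l), a), by simp [hlB]⟩, f ⟨((j, l), a), by simp [hlB]⟩), hyf _, hpd1 _⟩
          have hinj : Function.Injective ψ := by
            intro a a' haa
            have h1 := congrArg (fun b : β => b.1.2) haa
            have h2 := hfinj h1
            have h3 := congrArg (fun e : D => e.1.2) h2
            exact h3
          have h1 : K ≤ (univ.filter (fun b : β => ¬ F l b)).card := by
            calc K = (univ.image ψ).card := by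
                  rw [card_image_of_injective _ hinj, card_univ, Fintype.card_fin]
              _ ≤ _ := by
                apply card_le_card
                intro b hb
                rw [mem_image] at hb
                obtain ⟨a, -, rfl⟩ := hb
                simp only [mem_filter, mem_univ, true_and]
                exact fun hh => hpd2 ⟨((j, l), a), by simp [hlB]⟩ ((hF _ _).1 hh)
          have h2 := card_filter_add_card_filter_not (s := (univ : Finset β)) (fun b : β => F l b)
          rw [card_univ, hβ] at h2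
          omega
        · have h2 : ¬ w < τ (j, l) := fun hlt => hlB (by simpa [Bad] using hlt)
          have h3 := hτF l
          omega
      · -- tokens of large degree: at most one
        intro b b' hb hb'
        rw [hdF] at hb hb'
        have e1 := (hyd b.1.2 b.1.1 b.2.1).2 (by omega)
        have e2 := (hyd b'.1.2 b'.1.1 b'.2.1).2 (by omega)
        apply Subtype.ext
        apply Prod.ext
        · rw [e1.2, e2.2]
        · rw [e1.1, e2.1]
      · -- total
        have h1 : (univ.filter (fun x : L × β => F x.1 x.2)).card ≤ T.card := by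
          apply card_le_card_of_injOn (fun x => (x.1, x.2.1.1, x.2.1.2))
          · intro x hx
            have hx' : F x.1 x.2 := by simpa using hx
            exact (hF _ _).1 hx'
          · rintro ⟨l, b⟩ - ⟨l', b'⟩ - hxx
            simp only [Prod.mk.injEq] at hxx
            obtain ⟨rfl, h1, h2⟩ := hxx
            have : b = b' := Subtype.ext (Prod.ext h1 h2)
            rw [this]
        have h2 : (K + 1) * (N - K) = 2 * (k * w) + w := by
          rw [hNw, Nat.add_sub_cancel, hK]; ring
        have h4 : k * N = k * w + k * K := by rw [hNw]; ring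
        have h5 : 2 * k * K = 2 * (k * K) := by ring
        refine lt_of_le_of_lt h1 ?_
        rw [h2]
        omega
    exact ⟨φ, hφ1, fun l hh => hφ2 l ((hF _ _).2 hh)⟩
  choose φ hφ1 hφ2 using hmatch
  refine ⟨fun j l => (φ j l).1, fun j l => (φ j l).2.2, fun j l => hφ2 j l, ?_⟩
  intro s c
  obtain ⟨j, hj⟩ := Y.meet s (y c)
  obtain ⟨l, hl⟩ := (hφ1 j).2 ⟨(Y.sg s j, c), hj, Y.side_sg s j⟩
  exact ⟨j, l, congrArg Subtype.val hl⟩

end Pool.Agent.GL
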