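import Pool.Agent.GL.Defs

/-!
# The base system from the odd cycle of length 15
-/

set_option autoImplicit false

namespace Pool.Agent.GL.Base

open Finset

abbrev Z15 := ZMod 15

/-- points: heavy `(v, b, p)` and light `(v, p)` -/
abbrev Pt := (Z15 × Bool × Fin 3) ⊕ (Z15 × Fin 2)

/-- class modulo 5 -/
def c (v : Z15) : Fin 5 := ⟨v.val % 5, Nat.mod_lt _ (by norm_num)⟩

/-- nonzero even representative -/
def E (d : Z15) : Prop := d.val ≠ 0 ∧ d.val % 2 = 0

instance : DecidablePred E := fun d => by unfold E; infer_instance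

def side : Pt → Fin 5
  | Sum.inl (v, false, _) => c v
  | Sum.inl (v, true, _) => c (v - 2)
  | Sum.inr (v, _) => c (v + 2)

abbrev Sg := Z15 × Fin 3 × Fin 3 × Fin 2
abbrev Xb := Z15 × (Z15 × Fin 3 → Bool)

def sg (s : Sg) (j : Fin 5) : Pt :=
  if j = c s.1 then Sum.inl (s.1, false, s.2.1)
  else if j = c (s.1 - 2) then Sum.inl (s.1, true, s.2.1)
  else if j = c (s.1 + 1) then Sum.inl (s.1 + 1, false, s.2.2.1)
  else if j = c (s.1 + 1 - 2) then Sum.inl (s.1 + 1, true, s.2.2.1)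
  else Sum.inr (s.1, s.2.2.2)

def bl (x : Xb) : Pt → Prop
  | Sum.inl (v, b, p) => E (v - x.1) ∧ x.2 (v, p) = b
  | Sum.inr (u, _) => u = x.1

def comp (x : Xb) (k : Z15) : Xb := (x.1 + k, fun z => x.2 (z.1 - k, z.2))

theorem dec1 : ∀ (u : Z15) (j : Fin 5), j ≠ c u → j ≠ c (u - 2) → j ≠ c (u + 1) →
    j ≠ c (u + 1 - 2) → c (u + 2) = j := by decide

theorem side_sg (s : Sg) (j : Fin 5) : side (sg s j) = j := by
  unfold sg
  split_ifs with h1 h2 h3 h4
  · exact h1.symm
  · exact h2.symm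
  · exact h3.symm
  · exact h4.symm
  · exact dec1 s.1 j h1 h2 h3 h4

/-- the five points of a transversal -/
theorem sg_a (u : Z15) (p1 p2 : Fin 3) (p3 : Fin 2) (b : Bool) :
    ∃ j, sg (u, p1, p2, p3) j = Sum.inl (u, b, p1) := by
  cases b
  · exact ⟨c u, by simp [sg]⟩
  · refine ⟨c (u - 2), ?_⟩
    have h : ∀ u : Z15, c (u - 2) ≠ c u := by decide
    simp [sg, h u]

theorem sg_b (u : Z15) (p1 p2 : Fin 3) (p3 : Fin 2) (b : Bool) :
    ∃ j, sg (u, p1, p2, p3) j = Sum.inl (u + 1, b, p2) := by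
  cases b
  · refine ⟨c (u + 1), ?_⟩
    have h1 : ∀ u : Z15, c (u + 1) ≠ c u := by decide
    have h2 : ∀ u : Z15, c (u + 1) ≠ c (u - 2) := by decide
    simp [sg, h1 u, h2 u]
  · refine ⟨c (u + 1 - 2), ?_⟩
    have h1 : ∀ u : Z15, c (u + 1 - 2) ≠ c u := by decide
    have h2 : ∀ u : Z15, c (u + 1 - 2) ≠ c (u - 2) := by decide
    have h3 : ∀ u : Z15, c (u + 1 - 2) ≠ c (u + 1) := by decide
    simp [sg, h1 u, h2 u, h3 u]

theorem sg_c (u : Z15) (p1 p2 : Fin 3) (p3 : Fin 2) :
    ∃ j, sg (u, p1, p2, p3) j = Sum.inr (u, p3) := by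
  refine ⟨c (u + 2), ?_⟩
  have h1 : ∀ u : Z15, c (u + 2) ≠ c u := by decide
  have h2 : ∀ u : Z15, c (u + 2) ≠ c (u - 2) := by decide
  have h3 : ∀ u : Z15, c (u + 2) ≠ c (u + 1) := by decide
  have h4 : ∀ u : Z15, c (u + 2) ≠ c (u + 1 - 2) := by decide
  simp [sg, h1 u, h2 u, h3 u, h4 u]

/-- every point of a transversal is one of these five -/
theorem sg_cases (u : Z15) (p1 p2 : Fin 3) (p3 : Fin 2) (j : Fin 5) :
    (∃ b, sg (u, p1, p2, p3) j = Sum.inl (u, b, p1)) ∨
    (∃ b, sg (u, p1, p2, p3) j = Sum.inl (u + 1, b, p2)) ∨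
    sg (u, p1, p2, p3) j = Sum.inr (u, p3) := by
  unfold sg
  split_ifs with h1 h2 h3 h4
  · exact Or.inl ⟨_, rfl⟩
  · exact Or.inl ⟨_, rfl⟩
  · exact Or.inr (Or.inl ⟨_, rfl⟩)
  · exact Or.inr (Or.inl ⟨_, rfl⟩)
  · exact Or.inr (Or.inr rfl)

theorem dec2 : ∀ d : Z15, d = 0 ∨ E d ∨ E (d + 1) := by decide

theorem meet (s : Sg) (x : Xb) : ∃ j, bl x (sg s j) := by
  obtain ⟨u, p1, p2, p3⟩ := s
  obtain ⟨i, f⟩ := x
  rcases dec2 (u - i) with h | h | h
  · obtain ⟨j, hj⟩ := sg_c u p1 p2 p3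
    refine ⟨j, ?_⟩
    rw [hj]
    exact sub_eq_zero.1 h
  · obtain ⟨j, hj⟩ := sg_a u p1 p2 p3 (f (u, p1))
    refine ⟨j, ?_⟩
    rw [hj]
    exact ⟨h, rfl⟩
  · obtain ⟨j, hj⟩ := sg_b u p1 p2 p3 (f (u + 1, p2))
    refine ⟨j, ?_⟩
    rw [hj]
    refine ⟨?_, rfl⟩
    have : u + 1 - i = u - i + 1 := by ring
    show E (u + 1 - i)
    rw [this]
    exact h

/-! ### Hitting the transversals -/

/-- classes all of whose heavy tokens are hit -/
def Fh (M : Finset Pt) : Finset Z15 :=
  univ.filter (fun v => ∀ p : Fin 3, ∃ b : Bool, Sum.inl (v, b, p) ∈ M)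

/-- classes all of whose light tokens are hit -/
def Fl (M : Finset Pt) : Finset Z15 :=
  univ.filter (fun v => ∀ p : Fin 2, Sum.inr (v, p) ∈ M)

theorem hit_cases (M : Finset Pt) (hM : ∀ s : Sg, ∃ j, sg s j ∈ M) (u : Z15) :
    u ∈ Fh M ∨ u + 1 ∈ Fh M ∨ u ∈ Fl M := by
  by_contra hno
  push Not at hno
  obtain ⟨h1, h2, h3⟩ := hno
  simp only [Fh, Fl, mem_filter, mem_univ, true_and, not_forall, not_exists] at h1 h2 h3
  obtain ⟨p1, h1⟩ := h1
  obtain ⟨p2, h2⟩ := h2
  obtain ⟨p3, h3⟩ := h3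
  obtain ⟨j, hj⟩ := hM (u, p1, p2, p3)
  rcases sg_cases u p1 p2 p3 j with ⟨b, hb⟩ | ⟨b, hb⟩ | hb
  · rw [hb] at hj; exact h1 b hj
  · rw [hb] at hj; exact h2 b hj
  · rw [hb] at hj; exact h3 hj

theorem count_cases (F G : Finset Z15) (h : ∀ u : Z15, u ∈ F ∨ u + 1 ∈ F ∨ u ∈ G) (u : Z15) :
    14 + ((if u ∈ F then 1 else 0) + (if u + 1 ∈ F then 1 else 0) + (if u ∈ G then 1 else 0)) ≤
      2 * F.card + G.card := by
  have e1 : ∑ v : Z15, ((if v ∈ F then 1 else 0) + (if v + 1 ∈ F then 1 else 0) +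
      (if v ∈ G then 1 else 0)) = 2 * F.card + G.card := by
    rw [sum_add_distrib, sum_add_distrib]
    have a1 : ∑ v : Z15, (if v ∈ F then 1 else 0) = F.card := by simp
    have a2 : ∑ v : Z15, (if v + 1 ∈ F then 1 else 0) = F.card := by
      rw [← a1]
      exact Equiv.sum_comp (Equiv.addRight (1 : Z15)) (fun v => if v ∈ F then 1 else 0)
    have a3 : ∑ v : Z15, (if v ∈ G then 1 else 0) = G.card := by simp
    rw [a1, a2, a3]
    ring
  rw [← e1, ← add_sum_erase univ _ (mem_univ u), add_comm 14]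
  apply Nat.add_le_add_left
  have e2 : (univ.erase u : Finset Z15).card = 14 := by
    rw [card_erase_of_mem (mem_univ _), card_univ, ZMod.card]
  calc 14 = ∑ v ∈ univ.erase u, 1 := by rw [sum_const, e2]; rfl
    _ ≤ _ := by
      apply sum_le_sum
      intro v _
      rcases h v with h | h | h <;> simp [h] <;> omega

/-- A choice-free counting lemma: tokens of `F`, `G` not in the exceptional set are hit by `M`. -/
theorem card_tokens (M : Finset Pt) (Q : Finset ((Z15 × Fin 3) ⊕ (Z15 × Fin 2)))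
    (h1 : ∀ v p, Sum.inl (v, p) ∈ Q → ∃ b : Bool, Sum.inl (v, b, p) ∈ M)
    (h2 : ∀ v p, Sum.inr (v, p) ∈ Q → Sum.inr (v, p) ∈ M) : Q.card ≤ M.card := by
  have : ∀ z : Z15 × Fin 3, ∃ b : Bool, Sum.inl z ∈ Q → Sum.inl (z.1, b, z.2) ∈ M := by
    rintro ⟨v, p⟩
    by_cases hq : Sum.inl (v, p) ∈ Q
    · obtain ⟨b, hb⟩ := h1 v p hq
      exact ⟨b, fun _ => hb⟩
    · exact ⟨false, fun h => absurd h hq⟩
  choose b hb using this
  apply card_le_card_of_injOn (fun z => match z with
    | Sum.inl z => (Sum.inl (z.1, b z, z.2) : Pt)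
    | Sum.inr z => Sum.inr z)
  · rintro (z | z) hz
    · exact hb z hz
    · exact h2 z.1 z.2 hz
  · rintro (⟨v, p⟩ | z) _ (⟨w, q⟩ | z') _ h
    · simp only [Sum.inl.injEq, Prod.mk.injEq] at h ⊢
      exact ⟨h.1, h.2.2⟩
    · simp at h
    · simp at h
    · simpa using h

/-- all the tokens of the classes in `F` (heavy) and `G` (light) -/
def tok (F G : Finset Z15) : Finset ((Z15 × Fin 3) ⊕ (Z15 × Fin 2)) :=
  (F ×ˢ univ).disjSum (G ×ˢ univ)

theorem card_tok (F G : Finset Z15) : (tok F G).card = 3 * F.card + 2 * G.card := by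
  rw [tok, card_disjSum, card_product, card_product, card_univ, card_univ, Fintype.card_fin,
    Fintype.card_fin]
  ring

theorem hit1 (M : Finset Pt) (hM : ∀ s : Sg, ∃ j, sg s j ∈ M) : 23 ≤ M.card := by
  have h1 := count_cases (Fh M) (Fl M) (hit_cases M hM) 0
  have h2 : (tok (Fh M) (Fl M)).card ≤ M.card := by
    apply card_tokens
    · intro v p h
      simp only [tok, inl_mem_disjSum, mem_product, mem_univ, and_true, Fh, mem_filter, true_and]
        at h
      exact h p
    · intro v p h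
      simp only [tok, inr_mem_disjSum, mem_product, mem_univ, and_true, Fl, mem_filter, true_and]
        at h
      exact h p
  rw [card_tok] at h2
  have h3 := hit_cases M hM 0
  have h4 : 1 ≤ (if (0 : Z15) ∈ Fh M then 1 else 0) + (if (0 : Z15) + 1 ∈ Fh M then 1 else 0) +
      (if (0 : Z15) ∈ Fl M then 1 else 0) := by
    rcases h3 with h | h | h <;> simp only [h, if_true] <;> omega
  omega

/-! ### Hitting the blocks -/

/-- classes with a heavy token both of whose points are in `Z` -/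
def Gh (Z : Finset Pt) : Finset Z15 :=
  univ.filter (fun v => ∃ p : Fin 3, ∀ b : Bool, Sum.inl (v, b, p) ∈ Z)

/-- classes with a light token in `Z` -/
def Gl (Z : Finset Pt) : Finset Z15 :=
  univ.filter (fun v => ∃ p : Fin 2, Sum.inr (v, p) ∈ Z)

theorem hitB_cases (Z : Finset Pt) (hZ : ∀ x : Xb, ∃ p ∈ Z, bl x p) (i : Z15) :
    (∃ v ∈ Gh Z, E (v - i)) ∨ i ∈ Gl Z := by
  by_contra hno
  push Not at hno
  obtain ⟨h1, h2⟩ := hno
  have : ∀ z : Z15 × Fin 3, ∃ b : Bool, E (z.1 - i) → Sum.inl (z.1, b, z.2) ∉ Z := by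
    rintro ⟨v, p⟩
    by_cases hv : E (v - i)
    · have h3 : v ∉ Gh Z := fun h => h1 v h hv
      simp only [Gh, mem_filter, mem_univ, true_and, not_exists, not_forall] at h3
      obtain ⟨b, hb⟩ := h3 p
      exact ⟨b, fun _ => hb⟩
    · exact ⟨false, fun h => absurd h hv⟩
  choose f hf using this
  obtain ⟨p, hp, hbl⟩ := hZ (i, f)
  rcases p with ⟨v, b, p⟩ | ⟨u, p⟩
  · obtain ⟨h3, h4⟩ := hbl
    have h5 : Sum.inl (v, f (v, p), p) ∉ Z := hf (v, p) h3
    have h6 : f (v, p) = b := h4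
    rw [h6] at h5
    exact h5 hp
  · have h3 : u = i := hbl
    apply h2
    simp only [Gl, mem_filter, mem_univ, true_and]
    exact ⟨p, h3 ▸ hp⟩

theorem card_T (v : Z15) : (univ.filter (fun i : Z15 => E (v - i))).card = 7 := by
  revert v; decide

theorem countB (Z : Finset Pt) (hZ : ∀ x : Xb, ∃ p ∈ Z, bl x p) :
    15 ≤ 7 * (Gh Z).card + (Gl Z).card := by
  have h1 : (univ : Finset Z15) ⊆
      (Gh Z).biUnion (fun v => univ.filter (fun i : Z15 => E (v - i))) ∪ Gl Z := by
    intro i _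
    rcases hitB_cases Z hZ i with ⟨v, hv, hE⟩ | h
    · rw [mem_union, mem_biUnion]
      exact Or.inl ⟨v, hv, by simpa using hE⟩
    · exact mem_union_right _ h
  have h2 := card_le_card h1
  rw [card_univ, ZMod.card] at h2
  have h3 : ((Gh Z).biUnion (fun v => univ.filter (fun i : Z15 => E (v - i)))).card ≤
      (Gh Z).card * 7 := card_biUnion_le_card_mul _ _ _ (fun v _ => (card_T v).le)
  have h4 := card_union_le ((Gh Z).biUnion (fun v => univ.filter (fun i : Z15 => E (v - i))))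
    (Gl Z)
  omega

/-- tokens chosen in `Z` -/
theorem exists_tokens (Z : Finset Pt) : ∃ (ph : Z15 → Fin 3) (pl : Z15 → Fin 2),
    (∀ v ∈ Gh Z, ∀ b : Bool, Sum.inl (v, b, ph v) ∈ Z) ∧
    (∀ v ∈ Gl Z, Sum.inr (v, pl v) ∈ Z) := by
  have h1 : ∀ v : Z15, ∃ p : Fin 3, v ∈ Gh Z → ∀ b : Bool, Sum.inl (v, b, p) ∈ Z := by
    intro v
    by_cases hv : v ∈ Gh Z
    · have hv' := hv
      simp only [Gh, mem_filter, mem_univ, true_and] at hv'
      obtain ⟨p, hp⟩ := hv'
      exact ⟨p, fun _ => hp⟩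
    · exact ⟨0, fun h => absurd h hv⟩
  have h2 : ∀ v : Z15, ∃ p : Fin 2, v ∈ Gl Z → Sum.inr (v, p) ∈ Z := by
    intro v
    by_cases hv : v ∈ Gl Z
    · have hv' := hv
      simp only [Gl, mem_filter, mem_univ, true_and] at hv'
      obtain ⟨p, hp⟩ := hv'
      exact ⟨p, fun _ => hp⟩
    · exact ⟨0, fun h => absurd h hv⟩
  choose ph hph using h1
  choose pl hpl using h2
  exact ⟨ph, pl, fun v hv => hph v hv, fun v hv => hpl v hv⟩

/-- the set of chosen points -/
def img (F G : Finset Z15) (ph : Z15 → Fin 3) (pl : Z15 → Fin 2) : Finset Pt :=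
  ((F ×ˢ (univ : Finset Bool)).disjSum G).image (fun z => match z with
    | Sum.inl z => (Sum.inl (z.1, z.2, ph z.1) : Pt)
    | Sum.inr v => Sum.inr (v, pl v))

theorem card_img (F G : Finset Z15) (ph : Z15 → Fin 3) (pl : Z15 → Fin 2) :
    (img F G ph pl).card = 2 * F.card + G.card := by
  rw [img, card_image_of_injective, card_disjSum, card_product, card_univ, Fintype.card_bool]
  · ring
  · rintro (⟨v, b⟩ | v) (⟨w, b'⟩ | w) h
    · simp only [Sum.inl.injEq, Prod.mk.injEq] at h ⊢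
      exact ⟨h.1, h.2.1⟩
    · simp at h
    · simp at h
    · simp only [Sum.inr.injEq, Prod.mk.injEq] at h ⊢
      exact h.1

theorem img_sub (Z : Finset Pt) (ph : Z15 → Fin 3) (pl : Z15 → Fin 2)
    (h1 : ∀ v ∈ Gh Z, ∀ b : Bool, Sum.inl (v, b, ph v) ∈ Z)
    (h2 : ∀ v ∈ Gl Z, Sum.inr (v, pl v) ∈ Z) : img (Gh Z) (Gl Z) ph pl ⊆ Z := by
  intro p hp
  rw [img, mem_image] at hp
  obtain ⟨z, hz, rfl⟩ := hp
  rcases z with ⟨v, b⟩ | v
  · rw [inl_mem_disjSum, mem_product] at hz
    exact h1 v hz.1 b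
  · rw [inr_mem_disjSum] at hz
    exact h2 v hz

theorem hit2 (Z : Finset Pt) (hZ : ∀ x : Xb, ∃ p ∈ Z, bl x p) : 5 ≤ Z.card := by
  obtain ⟨ph, pl, h1, h2⟩ := exists_tokens Z
  have h3 := card_le_card (img_sub Z ph pl h1 h2)
  rw [card_img] at h3
  have h4 := countB Z hZ
  omega

theorem dec3 : ∀ d l : Z15, (∀ t : Z15, E t ∨ E (d + t) ∨ t = l) →
    (d = 1 ∧ l = 0) ∨ (d = -1 ∧ l = 1) := by decide

theorem structZ (Z : Finset Pt) (hZ : ∀ x : Xb, ∃ p ∈ Z, bl x p) (hc : Z.card = 5) :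
    ∃ (u : Z15) (p1 p2 : Fin 3) (p3 : Fin 2), ∀ p ∈ Z,
      (∃ b, p = Sum.inl (u, b, p1)) ∨ (∃ b, p = Sum.inl (u + 1, b, p2)) ∨ p = Sum.inr (u, p3) := by
  obtain ⟨ph, pl, h1, h2⟩ := exists_tokens Z
  have hsub := img_sub Z ph pl h1 h2
  have h3 := card_le_card hsub
  rw [card_img, hc] at h3
  have h4 := countB Z hZ
  have h5 : (Gh Z).card = 2 := by omega
  have h6 : (Gl Z).card = 1 := by omega
  have heq : img (Gh Z) (Gl Z) ph pl = Z := by
    apply eq_of_subset_of_card_le hsub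
    rw [card_img, hc]
    omega
  obtain ⟨v, w, hvw, hG⟩ := card_eq_two.1 h5
  obtain ⟨l, hl⟩ := card_eq_one.1 h6
  have h7 : ∀ t : Z15, E t ∨ E (w - v + t) ∨ t = v - l := by
    intro t
    rcases hitB_cases Z hZ (v - t) with ⟨z, hz, hE⟩ | h
    · rw [hG, mem_insert, mem_singleton] at hz
      rcases hz with rfl | rfl
      · left
        have : z - (z - t) = t := by ring
        rwa [this] at hE
      · right; left
        have : z - (v - t) = z - v + t := by ring
        rwa [this] at hE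
    · right; right
      rw [hl, mem_singleton] at h
      rw [← h]; ring
  have hmem : ∀ p ∈ Z, (∃ b, p = Sum.inl (v, b, ph v)) ∨ (∃ b, p = Sum.inl (w, b, ph w)) ∨
      p = Sum.inr (l, pl l) := by
    intro p hp
    rw [← heq, img, mem_image] at hp
    obtain ⟨z, hz, rfl⟩ := hp
    rcases z with ⟨v', b⟩ | v'
    · rw [inl_mem_disjSum, mem_product, hG, mem_insert, mem_singleton] at hz
      rcases hz.1 with h | h
      · left; exact ⟨b, by simp only at h; rw [h]⟩
      · right; left; exact ⟨b, by simp only at h; rw [h]⟩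
    · rw [inr_mem_disjSum, hl, mem_singleton] at hz
      right; right; rw [hz]
  rcases dec3 (w - v) (v - l) h7 with ⟨hd, hl'⟩ | ⟨hd, hl'⟩
  · have hw : w = v + 1 := by rw [← hd]; ring
    have hl2 : l = v := (sub_eq_zero.1 hl').symm
    refine ⟨v, ph v, ph w, pl l, ?_⟩
    intro p hp
    rcases hmem p hp with h | h | h
    · exact Or.inl h
    · right; left
      obtain ⟨b, hb⟩ := h
      exact ⟨b, by rw [hb, ← hw]⟩
    · right; right
      rw [h, hl2]
  · have hv : v = w + 1 := by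
      have : v = w - (w - v) := by ring
      rw [this, hd]; ring
    have hl2 : l = w := by
      have : l = v - (v - l) := by ring
      rw [this, hl', hv]; ring
    refine ⟨w, ph w, ph v, pl l, ?_⟩
    intro p hp
    rcases hmem p hp with h | h | h
    · right; left
      obtain ⟨b, hb⟩ := h
      exact ⟨b, by rw [hb, ← hv]⟩
    · exact Or.inl h
    · right; right
      rw [h, hl2]

theorem hit3 (Z : Finset Pt) (hZ : ∀ x : Xb, ∃ p ∈ Z, bl x p) (hc : Z.card = 5) (M : Finset Pt)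
    (hM : ∀ s : Sg, (∀ j, sg s j ∉ Z) → ∃ j, sg s j ∈ M) : 23 ≤ M.card + 1 := by
  obtain ⟨u, p1, p2, p3, hstr⟩ := structZ Z hZ hc
  have hall : ∀ s : Sg, ∃ j, sg s j ∈ M ∪ Z := by
    intro s
    by_cases h : ∀ j, sg s j ∉ Z
    · obtain ⟨j, hj⟩ := hM s h
      exact ⟨j, mem_union_left _ hj⟩
    · push Not at h
      obtain ⟨j, hj⟩ := h
      exact ⟨j, mem_union_right _ hj⟩
  set F := Fh (M ∪ Z) with hF
  set G := Fl (M ∪ Z) with hG
  have h1 := count_cases F G (hit_cases _ hall) u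
  have h3 := hit_cases _ hall u
  -- exceptional tokens
  set ex : Finset ((Z15 × Fin 3) ⊕ (Z15 × Fin 2)) :=
    {Sum.inl (u, p1), Sum.inl (u + 1, p2), Sum.inr (u, p3)} with hex
  have h2 : (tok F G \ ex).card ≤ M.card := by
    apply card_tokens
    · intro v p h
      rw [mem_sdiff] at h
      obtain ⟨ha, hb⟩ := h
      simp only [tok, inl_mem_disjSum, mem_product, mem_univ, and_true, hF, Fh, mem_filter,
        true_and] at ha
      obtain ⟨b, hb'⟩ := ha p
      refine ⟨b, ?_⟩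
      rcases mem_union.1 hb' with h | h
      · exact h
      · exfalso
        apply hb
        rcases hstr _ h with ⟨b', e⟩ | ⟨b', e⟩ | e
        · simp only [Sum.inl.injEq, Prod.mk.injEq] at e
          rw [e.1, e.2.2]; simp [hex]
        · simp only [Sum.inl.injEq, Prod.mk.injEq] at e
          rw [e.1, e.2.2]; simp [hex]
        · simp at e
    · intro v p h
      rw [mem_sdiff] at h
      obtain ⟨ha, hb⟩ := h
      simp only [tok, inr_mem_disjSum, mem_product, mem_univ, and_true, hG, Fl, mem_filter,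
        true_and] at ha
      rcases mem_union.1 (ha p) with h | h
      · exact h
      · exfalso
        apply hb
        rcases hstr _ h with ⟨b', e⟩ | ⟨b', e⟩ | e
        · simp at e
        · simp at e
        · simp only [Sum.inr.injEq, Prod.mk.injEq] at e
          rw [e.1, e.2]; simp [hex]
  have h4 : (tok F G).card ≤ (tok F G \ ex).card +
      ((if u ∈ F then 1 else 0) + (if u + 1 ∈ F then 1 else 0) + (if u ∈ G then 1 else 0)) := by
    have hsub : tok F G ∩ ex ⊆ (if u ∈ F then {Sum.inl (u, p1)} else ∅) ∪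
        (if u + 1 ∈ F then {Sum.inl (u + 1, p2)} else ∅) ∪
        (if u ∈ G then {Sum.inr (u, p3)} else ∅) := by
      intro z hz
      rw [mem_inter, hex, mem_insert, mem_insert, mem_singleton] at hz
      obtain ⟨hz1, hz2⟩ := hz
      rcases hz2 with rfl | rfl | rfl
      · simp only [tok, inl_mem_disjSum, mem_product, mem_univ, and_true] at hz1
        simp [hz1]
      · simp only [tok, inl_mem_disjSum, mem_product, mem_univ, and_true] at hz1
        simp [hz1]
      · simp only [tok, inr_mem_disjSum, mem_product, mem_univ, and_true] at hz1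
        simp [hz1]
    have hcard := card_le_card hsub
    have hc1 : (if u ∈ F then ({Sum.inl (u, p1)} : Finset ((Z15 × Fin 3) ⊕ (Z15 × Fin 2)))
      else ∅).card = if u ∈ F then 1 else 0 := by split_ifs <;> simp
    have hc2 : (if u + 1 ∈ F then ({Sum.inl (u + 1, p2)} :
      Finset ((Z15 × Fin 3) ⊕ (Z15 × Fin 2))) else ∅).card = if u + 1 ∈ F then 1 else 0 := by
      split_ifs <;> simp
    have hc3 : (if u ∈ G then ({Sum.inr (u, p3)} : Finset ((Z15 × Fin 3) ⊕ (Z15 × Fin 2)))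
      else ∅).card = if u ∈ G then 1 else 0 := by split_ifs <;> simp
    have hu1 := card_union_le ((if u ∈ F then {Sum.inl (u, p1)} else ∅) ∪
        (if u + 1 ∈ F then {Sum.inl (u + 1, p2)} else ∅))
        (if u ∈ G then ({Sum.inr (u, p3)} : Finset ((Z15 × Fin 3) ⊕ (Z15 × Fin 2))) else ∅)
    have hu2 := card_union_le (if u ∈ F then ({Sum.inl (u, p1)} :
        Finset ((Z15 × Fin 3) ⊕ (Z15 × Fin 2))) else ∅)
        (if u + 1 ∈ F then {Sum.inl (u + 1, p2)} else ∅)
    have hsd := card_sdiff_add_card_inter (tok F G) ex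
    rw [hc1, hc2] at hu2
    rw [hc3] at hu1
    omega
  rw [card_tok] at h4
  have h5 : 1 ≤ (if u ∈ F then 1 else 0) + (if u + 1 ∈ F then 1 else 0) +
      (if u ∈ G then 1 else 0) := by
    rcases h3 with h | h | h
    · rw [if_pos h]; omega
    · rw [if_pos h]; omega
    · rw [if_pos h]; omega
  omega

/-! ### The remaining properties -/

theorem cov (p : Pt) : ∃ x : Xb, bl x p := by
  rcases p with ⟨v, b, p⟩ | ⟨u, p⟩
  · refine ⟨(v - 2, fun _ => b), ?_, rfl⟩
    show E (v - (v - 2))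
    have : v - (v - 2) = 2 := by ring
    rw [this]
    decide
  · exact ⟨(u, fun _ => false), rfl⟩

instance (x : Xb) : DecidablePred (bl x) := fun p => by
  rcases p with ⟨v, b, p⟩ | ⟨u, p⟩
  · exact inferInstanceAs (Decidable (E (v - x.1) ∧ x.2 (v, p) = b))
  · exact inferInstanceAs (Decidable (u = x.1))

theorem large (j : Fin 5) : 24 ≤ (univ.filter (fun p : Pt => side p = j)).card := by
  revert j
  decide +kernel

/-- rotation of the points -/
def rot (k : Z15) : Pt ≃ Pt where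
  toFun := fun p => match p with
    | Sum.inl (v, b, p) => Sum.inl (v + k, b, p)
    | Sum.inr (v, p) => Sum.inr (v + k, p)
  invFun := fun p => match p with
    | Sum.inl (v, b, p) => Sum.inl (v - k, b, p)
    | Sum.inr (v, p) => Sum.inr (v - k, p)
  left_inv := by rintro (⟨v, b, p⟩ | ⟨v, p⟩) <;> simp
  right_inv := by rintro (⟨v, b, p⟩ | ⟨v, p⟩) <;> simp

theorem bl_rot (x : Xb) (k : Z15) (p : Pt) : bl (comp x k) (rot k p) ↔ bl x p := by
  rcases p with ⟨v, b, p⟩ | ⟨v, p⟩
  · show (E (v + k - (x.1 + k)) ∧ x.2 (v + k - k, p) = b) ↔ (E (v - x.1) ∧ x.2 (v, p) = b)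
    have h1 : v + k - (x.1 + k) = v - x.1 := by ring
    have h2 : v + k - k = v := by ring
    rw [h1, h2]
  · show v + k = x.1 + k ↔ v = x.1
    exact add_left_inj k

theorem side_rot (p : Pt) (j : Fin 5) : (univ.filter (fun k : Z15 => side (rot k p) = j)).card = 3 := by
  have h1 : ∀ (v : Z15) (j : Fin 5), (univ.filter (fun k : Z15 => c (v + k) = j)).card = 3 := by
    decide
  have h2 : ∀ (v : Z15) (j : Fin 5), (univ.filter (fun k : Z15 => c (v + k - 2) = j)).card = 3 := by
    decide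
  have h3 : ∀ (v : Z15) (j : Fin 5), (univ.filter (fun k : Z15 => c (v + k + 2) = j)).card = 3 := by
    decide
  rcases p with ⟨v, b, p⟩ | ⟨v, p⟩
  · cases b
    · exact h1 v j
    · exact h2 v j
  · exact h3 v j

theorem card_bl (x : Xb) : (univ.filter (fun p => bl x p)).card = 23 := by
  have key : (univ.filter (fun p => bl x p)) =
      (((univ.filter (fun v : Z15 => E (v - x.1))) ×ˢ (univ : Finset (Fin 3))).disjSum
        (univ : Finset (Fin 2))).image (fun z => match z with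
          | Sum.inl z => (Sum.inl (z.1, x.2 z, z.2) : Pt)
          | Sum.inr p => Sum.inr (x.1, p)) := by
    ext p
    rw [mem_filter, mem_image]
    constructor
    · rintro ⟨-, hp⟩
      rcases p with ⟨v, b, p⟩ | ⟨v, p⟩
      · refine ⟨Sum.inl (v, p), ?_, ?_⟩
        · rw [inl_mem_disjSum, mem_product, mem_filter]
          exact ⟨⟨mem_univ _, hp.1⟩, mem_univ _⟩
        · have h6 : x.2 (v, p) = b := hp.2
          simp only [h6]
      · refine ⟨Sum.inr p, ?_, ?_⟩
        · rw [inr_mem_disjSum]; exact mem_univ _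
        · have h6 : v = x.1 := hp
          simp only [h6]
    · rintro ⟨z, hz, rfl⟩
      refine ⟨mem_univ _, ?_⟩
      rcases z with ⟨v, p⟩ | p
      · rw [inl_mem_disjSum, mem_product, mem_filter] at hz
        exact ⟨hz.1.2, rfl⟩
      · exact rfl
  rw [key, card_image_of_injective, card_disjSum, card_product]
  · have h7 : ∀ i : Z15, (univ.filter (fun v : Z15 => E (v - i))).card = 7 := by decide
    rw [h7, card_univ, card_univ, Fintype.card_fin, Fintype.card_fin]
  · rintro (⟨v, b⟩ | v) (⟨w, b'⟩ | w) h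
    · simp only [Sum.inl.injEq, Prod.mk.injEq] at h ⊢
      exact ⟨h.1, h.2.2⟩
    · simp at h
    · simp at h
    · simp only [Sum.inr.injEq, Prod.mk.injEq] at h ⊢
      exact h.2

theorem bal (x : Xb) (j : Fin 5) :
    ∑ k : Z15, (univ.filter (fun p => bl (comp x k) p ∧ side p = j)).card = 69 := by
  have h1 : ∀ k : Z15, (univ.filter (fun p => bl (comp x k) p ∧ side p = j)).card =
      ∑ p : Pt, if bl x p ∧ side (rot k p) = j then 1 else 0 := by
    intro k
    rw [card_filter, ← Equiv.sum_comp (rot k)]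
    apply sum_congr rfl
    intro p _
    simp only [bl_rot]
  simp only [h1]
  rw [sum_comm]
  have h2 : ∀ p : Pt, ∑ k : Z15, (if bl x p ∧ side (rot k p) = j then 1 else 0) =
      if bl x p then 3 else 0 := by
    intro p
    by_cases hp : bl x p
    · simp only [hp, true_and, if_true]
      rw [← card_filter]
      exact side_rot p j
    · simp [hp]
  simp only [h2]
  rw [← sum_filter, sum_const, card_bl]
  rfl

end Pool.Agent.GL.Base

namespace Pool.Agent.GL

open Base

/-- The base system. -/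
noncomputable def baseSys : Sys (Fin 5) Pt Sg Xb Z15 23 24 69 where
  side := side
  sg := sg
  bl := bl
  comp := comp
  i0 := 0
  side_sg := side_sg
  meet := meet
  hit1 := hit1
  hit2 := by
    intro Z hZ
    rw [Fintype.card_fin]
    exact hit2 Z hZ
  hit3 := by
    intro Z hZ hc M hM
    rw [Fintype.card_fin] at hc
    exact hit3 Z hZ hc M hM
  cov := cov
  large := by
    intro j
    convert large j
  comp0 := by
    rintro ⟨i, f⟩
    simp [comp]
  bal := by
    intro x j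
    rw [← bal x j]
    apply Finset.sum_congr rfl
    intro k _
    congr 1
    ext p
    simp
  count := by
    rw [Fintype.card_fin, ZMod.card]

theorem good_base : Good 5 23 24 :=
  ⟨Fin 5, Pt, Sg, Xb, Z15, inferInstance, inferInstance, inferInstance, 69, Fintype.card_fin 5,
    ⟨baseSys⟩⟩

end Pool.Agent.GL
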