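import Mathlib
import Pool.Agent.GL.Avoid

set_option autoImplicit false

namespace Pool.Agent.GL

open Finset Classical

variable {J P S X I : Type} [Fintype J] [Fintype P] [Fintype I] {h q m : ℕ}

theorem Sys.blow (Y : Sys J P S X I h q m) (hk : 0 < Fintype.card J) (hh : 0 < h)
    (hq : 3 * h ≤ q) :
    ¬ (∀ (r : ℕ), 2 ≤ r →
    ∀ (V : Type) [Fintype V] [DecidableEq V] (part : V → Fin r)
      (A B : Finset (Finset V)),
      (∀ e ∈ A, ∀ i : Fin r, (e.filter (fun v => part v = i)).card = 1) →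
      (∀ e ∈ B, ∀ i : Fin r, (e.filter (fun v => part v = i)).card = 1) →
      A.Nonempty → B.Nonempty →
      (∀ e ∈ A, ∀ f ∈ B, (e ∩ f).Nonempty) →
      ∃ T : Finset V, T.card ≤ 2 * r - 2 ∧ ∀ e ∈ A ∪ B, (T ∩ e).Nonempty) := by
  intro H
  set k := Fintype.card J with hkdef
  have hm : 0 < m := by
    have h1 := Y.count
    rw [← hkdef] at h1
    have h2 : 0 < Fintype.card I * h := Nat.mul_pos (Fintype.card_pos_iff.2 ⟨Y.i0⟩) hh
    rw [← h1] at h2
    exact Nat.pos_of_mul_pos_left h2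
  obtain ⟨t, ht⟩ : ∃ t, t = (4 * k + 1) * Fintype.card P + 4 * k * k + 4 * k + 2 := ⟨_, rfl⟩
  obtain ⟨N, hN⟩ : ∃ N, N = t * m := ⟨_, rfl⟩
  obtain ⟨K, hK⟩ : ∃ K, K = 2 * k := ⟨_, rfl⟩
  have htN : t ≤ N := by rw [hN]; exact Nat.le_mul_of_pos_right _ hm
  obtain ⟨w, hw⟩ : ∃ w, N = w + K := ⟨N - K, by omega⟩
  have hkK : 2 * k * K = 4 * k * k := by rw [hK]; ring
  have hw2 : 2 * k * K ≤ w := by omega
  have hP : (2 * K + 1) * Fintype.card P ≤ N := by
    have : (2 * K + 1) * Fintype.card P = (4 * k + 1) * Fintype.card P := by rw [hK]; ring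
    omega
  have htK : k + 2 * k * K ≤ t := by omega
  have hcardC : Fintype.card (Fin t × I) * h = k * N := by
    rw [Fintype.card_prod, Fintype.card_fin, mul_assoc, ← Y.count, hN]; ring
  have hr2 : 2 ≤ k * N := by
    calc 2 ≤ N := by omega
      _ ≤ k * N := Nat.le_mul_of_pos_left _ hk
  have hext := Y.extend t
  rw [← hN] at hext
  -- the hypergraph
  let V := Fin N × P × (Fin t × I)
  have hEcard : Fintype.card (J × Fin N) = k * N := by simp [hkdef]
  let E : J × Fin N ≃ Fin (k * N) := Fintype.equivFinOfCardEq hEcard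
  let part : V → Fin (k * N) := fun v => E (Y.side v.2.1, v.1)
  have htrans : ∀ g : J × Fin N → V, (∀ x, part (g x) = E x) → ∀ i,
      ((univ.image g).filter (fun v => part v = i)).card = 1 := by
    intro g hg i
    rw [card_eq_one]
    refine ⟨g (E.symm i), ?_⟩
    ext v
    simp only [mem_filter, mem_image, mem_univ, true_and, mem_singleton]
    constructor
    · rintro ⟨⟨x, rfl⟩, hv⟩
      rw [hg] at hv
      rw [← hv, Equiv.symm_apply_apply]
    · rintro rfl
      exact ⟨⟨_, rfl⟩, by rw [hg, Equiv.apply_symm_apply]⟩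
  let edge : S → (Fin t × I) → Finset V := fun s c =>
    univ.image (fun x : J × Fin N => ((x.2, Y.sg s x.1, c) : V))
  let A : Finset (Finset V) := univ.filter (fun e => ∃ s c, e = edge s c)
  let B : Finset (Finset V) := univ.filter (fun e =>
    (∀ i, (e.filter (fun v => part v = i)).card = 1) ∧ ∀ a ∈ A, (a ∩ e).Nonempty)
  have hmain : ∀ T : Finset V, T.card + 2 ≤ 2 * (k * N) →
      (∀ s c, ∃ j l, ((l, Y.sg s j, c) : V) ∈ T) → ∃ e ∈ B, ∀ v ∈ T, v ∉ e := by
    intro T hT hA
    obtain ⟨g, hg1, hg2, hg3⟩ := Y.avoid t N w K hk hh hK (by simp) hw hcardC hext hw2 hP htK hq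
      T hT hA
    refine ⟨univ.image (fun x : J × Fin N =>
      ((x.2, (g x.1 x.2).1, (g x.1 x.2).2) : V)), ?_, ?_⟩
    · simp only [B, mem_filter, mem_univ, true_and]
      refine ⟨htrans _ (fun x => by simp only [part, hg1]), ?_⟩
      intro a ha
      simp only [A, mem_filter, mem_univ, true_and] at ha
      obtain ⟨s, c, rfl⟩ := ha
      obtain ⟨j, l, hjl⟩ := hg3 s c
      refine ⟨(l, Y.sg s j, c), ?_⟩
      simp only [mem_inter, edge, mem_image, mem_univ, true_and]
      exact ⟨⟨(j, l), rfl⟩, ⟨(j, l), by simp only [hjl]⟩⟩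
    · intro v hv hve
      simp only [mem_image, mem_univ, true_and] at hve
      obtain ⟨x, rfl⟩ := hve
      exact hg2 x.1 x.2 hv
  -- nonemptiness
  have hS : Nonempty S := by
    by_contra hne
    have := Y.hit1 ∅ (fun s => (hne ⟨s⟩).elim)
    simp at this
    omega
  have hJ : Nonempty J := Fintype.card_pos_iff.1 hk
  obtain ⟨s1⟩ := hS
  obtain ⟨j1⟩ := hJ
  obtain ⟨x1, -⟩ := Y.cov (Y.sg s1 j1)
  have ht0 : 0 < t := by omega
  have hN0 : 0 < N := by omega
  have hAne : A.Nonempty := ⟨edge s1 (⟨0, ht0⟩, Y.i0), by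
    simp only [A, mem_filter, mem_univ, true_and]
    exact ⟨_, _, rfl⟩⟩
  have hBne : B.Nonempty := by
    let T0 : Finset V := ({⟨0, hN0⟩} : Finset (Fin N)) ×ˢ
      (univ.filter (fun b : P × (Fin t × I) => Y.bl (Y.comp x1 b.2.2) b.1))
    have hT0 : T0.card = k * N := by
      simp only [T0]
      rw [card_product, card_singleton, one_mul, card_filter, Fintype.sum_prod_type_right,
        Fintype.sum_prod_type]
      simp only
      have h1 : ∀ i, ∑ p, (if Y.bl (Y.comp x1 i) p then 1 else 0) =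
          ∑ j, (univ.filter (fun p => Y.bl (Y.comp x1 i) p ∧ Y.side p = j)).card := by
        intro i
        rw [← card_filter]
        rw [card_eq_sum_card_fiberwise (f := Y.side) (t := univ) (fun _ _ => mem_coe.2 (mem_univ _))]
        apply sum_congr rfl
        intro j _
        rw [filter_filter]
      have h2 : ∑ i, ∑ p, (if Y.bl (Y.comp x1 i) p then 1 else 0) = k * m := by
        rw [sum_congr rfl (fun i _ => h1 i), sum_comm]
        rw [sum_congr rfl (fun j _ => Y.bal x1 j)]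
        simp [hkdef]
      rw [sum_congr rfl (fun a _ => h2)]
      simp [hN]; ring
    obtain ⟨e, he, -⟩ := hmain T0 (by omega) (by
      intro s c
      obtain ⟨j, hj⟩ := Y.meet s (Y.comp x1 c.2)
      refine ⟨j, ⟨0, hN0⟩, ?_⟩
      exact mem_product.2 ⟨mem_singleton_self _, mem_filter.2 ⟨mem_univ _, hj⟩⟩)
    exact ⟨e, he⟩
  obtain ⟨T, hT, hcov⟩ := H (k * N) hr2 V part A B
    (by
      intro e he
      simp only [A, mem_filter, mem_univ, true_and] at he
      obtain ⟨s, c, rfl⟩ := he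
      exact htrans _ (fun x => by simp only [part, Y.side_sg]))
    (by
      intro e he
      simp only [B, mem_filter, mem_univ, true_and] at he
      exact he.1)
    hAne hBne
    (by
      intro e he f hf
      simp only [B, mem_filter, mem_univ, true_and] at hf
      exact hf.2 e he)
  obtain ⟨e, he, hTe⟩ := hmain T (by omega) (by
    intro s c
    have : edge s c ∈ A := by
      simp only [A, mem_filter, mem_univ, true_and]
      exact ⟨_, _, rfl⟩
    obtain ⟨v, hv⟩ := hcov _ (mem_union_left _ this)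
    simp only [mem_inter, edge, mem_image, mem_univ, true_and] at hv
    obtain ⟨hv1, x, rfl⟩ := hv
    exact ⟨x.1, x.2, hv1⟩)
  obtain ⟨v, hv⟩ := hcov e (mem_union_right _ he)
  rw [mem_inter] at hv
  exact hTe v hv.1 hv.2

/-- A good system with large sides refutes the conjecture. -/
theorem blow {k h q : ℕ} (hg : Good k h q) (hk : 0 < k) (hh : 0 < h) (hq : 3 * h ≤ q) :
    ¬ (∀ (r : ℕ), 2 ≤ r →
    ∀ (V : Type) [Fintype V] [DecidableEq V] (part : V → Fin r)
      (A B : Finset (Finset V)),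
      (∀ e ∈ A, ∀ i : Fin r, (e.filter (fun v => part v = i)).card = 1) →
      (∀ e ∈ B, ∀ i : Fin r, (e.filter (fun v => part v = i)).card = 1) →
      A.Nonempty → B.Nonempty →
      (∀ e ∈ A, ∀ f ∈ B, (e ∩ f).Nonempty) →
      ∃ T : Finset V, T.card ≤ 2 * r - 2 ∧ ∀ e ∈ A ∪ B, (T ∩ e).Nonempty) := by
  obtain ⟨J, P, S, X, I, _, _, _, m, hJ, ⟨Y⟩⟩ := hg
  exact Y.blow (by rw [hJ]; exact hk) hh hq

end Pool.Agent.GL
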