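import Pool.Agent.GL.Defs

/-!
# Composition of weakly tight systems
-/

set_option autoImplicit false

namespace Pool.Agent.GL

open Finset Classical

section Fiber

variable {P P' : Type} [Fintype P] [Fintype P']

/-- the fibre of a set of pairs -/
noncomputable def fib (M : Finset (P × P')) (p : P) : Finset P' :=
  univ.filter (fun p' => (p, p') ∈ M)

omit [Fintype P] in
theorem mem_fib (M : Finset (P × P')) (p : P) (p' : P') : p' ∈ fib M p ↔ (p, p') ∈ M := by
  simp [fib]

theorem card_eq_sum_fib (M : Finset (P × P')) : M.card = ∑ p, (fib M p).card := by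
  have h1 : M.card = ∑ p, (M.filter (fun z => z.1 = p)).card :=
    card_eq_sum_card_fiberwise (fun z _ => mem_univ z.1)
  rw [h1]
  apply sum_congr rfl
  intro p _
  apply card_bij (fun z _ => z.2)
  · intro z hz
    rw [mem_filter] at hz
    rw [mem_fib]
    have : (p, z.2) = z := by rw [← hz.2]
    rw [this]
    exact hz.1
  · intro z hz w hw hzw
    rw [mem_filter] at hz hw
    exact Prod.ext (hz.2.trans hw.2.symm) hzw
  · intro p' hp'
    rw [mem_fib] at hp'
    exact ⟨(p, p'), by rw [mem_filter]; exact ⟨hp', rfl⟩, rfl⟩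

theorem sum_fib_le (M : Finset (P × P')) (F : Finset P) :
    ∑ p ∈ F, (fib M p).card ≤ M.card := by
  rw [card_eq_sum_fib M]
  exact sum_le_sum_of_subset (subset_univ F)

end Fiber

variable {J P S X I J' P' S' X' I' : Type} [Fintype J] [Fintype P] [Fintype I]
  [Fintype J'] [Fintype P'] [Fintype I'] {h q m h' q' m' : ℕ}

theorem Sys.nonempty_X (U : Sys J' P' S' X' I' h' q' m') (hJ' : 0 < Fintype.card J')
    (hh' : 0 < h') : Nonempty X' := by
  have hS : Nonempty S' := by
    by_contra hne
    rw [not_nonempty_iff] at hne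
    have := U.hit1 ∅ (fun s => (hne.false s).elim)
    rw [card_empty] at this
    omega
  obtain ⟨s⟩ := hS
  obtain ⟨j⟩ := Fintype.card_pos_iff.1 hJ'
  obtain ⟨x, -⟩ := U.cov (U.sg s j)
  exact ⟨x⟩

/-- the points over which `Z` hits all the blocks -/
noncomputable def hitB (U : Sys J' P' S' X' I' h' q' m') (Z : Finset (P × P')) : Finset P :=
  univ.filter (fun p => ∀ x', ∃ p' ∈ fib Z p, U.bl x' p')

theorem hitB_hits (T : Sys J P S X I h q m) (U : Sys J' P' S' X' I' h' q' m')
    (hJ' : 0 < Fintype.card J') (hh' : 0 < h') (Z : Finset (P × P'))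
    (hZ : ∀ x : X × (P → X'), ∃ p ∈ Z, T.bl x.1 p.1 ∧ U.bl (x.2 p.1) p.2) :
    ∀ x, ∃ p ∈ hitB U Z, T.bl x p := by
  intro x
  by_contra hno
  push Not at hno
  obtain ⟨x0⟩ := U.nonempty_X hJ' hh'
  have : ∀ p, ∃ x', T.bl x p → ∀ p' ∈ fib Z p, ¬ U.bl x' p' := by
    intro p
    by_cases hp : T.bl x p
    · have h2 : p ∉ hitB U Z := fun h => hno p h hp
      rw [hitB, mem_filter] at h2
      push Not at h2
      obtain ⟨x', hx'⟩ := h2 (mem_univ _)
      exact ⟨x', fun _ => hx'⟩
    · exact ⟨x0, fun h => absurd h hp⟩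
  choose g hg using this
  obtain ⟨⟨p, p'⟩, hp, hp1, hp2⟩ := hZ (x, g)
  exact hg p hp1 p' ((mem_fib _ _ _).2 hp) hp2

/-- the composition of two systems -/
noncomputable def Sys.mul (T : Sys J P S X I h q m) (U : Sys J' P' S' X' I' h' q' m')
    (hJ' : 0 < Fintype.card J') (hh' : 0 < h') :
    Sys (J × J') (P × P') (S × (J → S')) (X × (P → X')) (I × I') (h * h') (q * q') (m * m') where
  side := fun z => (T.side z.1, U.side z.2)
  sg := fun s z => (T.sg s.1 z.1, U.sg (s.2 z.1) z.2)
  bl := fun x z => T.bl x.1 z.1 ∧ U.bl (x.2 z.1) z.2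
  comp := fun x i => (T.comp x.1 i.1, fun v => U.comp (x.2 v) i.2)
  i0 := (T.i0, U.i0)
  side_sg := by
    rintro ⟨s, f⟩ ⟨j, j'⟩
    simp only [T.side_sg, U.side_sg]
  meet := by
    rintro ⟨s, f⟩ ⟨x, g⟩
    obtain ⟨j, hj⟩ := T.meet s x
    obtain ⟨j', hj'⟩ := U.meet (f j) (g (T.sg s j))
    exact ⟨(j, j'), hj, hj'⟩
  hit1 := by
    intro M hM
    set F : Finset P := univ.filter (fun p => ∀ s', ∃ j', U.sg s' j' ∈ fib M p) with hF
    have h1 : h ≤ F.card := by
      apply T.hit1
      intro s
      by_contra hno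
      push Not at hno
      have : ∀ j, ∃ s', ∀ j', U.sg s' j' ∉ fib M (T.sg s j) := by
        intro j
        have := hno j
        rw [hF, mem_filter] at this
        push Not at this
        exact this (mem_univ _)
      choose f hf using this
      obtain ⟨⟨j, j'⟩, hj⟩ := hM (s, f)
      exact hf j j' ((mem_fib _ _ _).2 hj)
    calc h * h' ≤ F.card * h' := Nat.mul_le_mul_right _ h1
      _ = ∑ p ∈ F, h' := by rw [sum_const, smul_eq_mul]
      _ ≤ ∑ p ∈ F, (fib M p).card := by
          apply sum_le_sum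
          intro p hp
          rw [hF, mem_filter] at hp
          exact U.hit1 _ hp.2
      _ ≤ M.card := sum_fib_le M F
  hit2 := by
    intro Z hZ
    have h1 := T.hit2 _ (hitB_hits T U hJ' hh' Z hZ)
    rw [Fintype.card_prod]
    calc Fintype.card J * Fintype.card J' ≤ (hitB U Z).card * Fintype.card J' :=
          Nat.mul_le_mul_right _ h1
      _ = ∑ p ∈ hitB U Z, Fintype.card J' := by rw [sum_const, smul_eq_mul]
      _ ≤ ∑ p ∈ hitB U Z, (fib Z p).card := by
          apply sum_le_sum
          intro p hp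
          rw [hitB, mem_filter] at hp
          exact U.hit2 _ hp.2
      _ ≤ Z.card := sum_fib_le Z _
  hit3 := by
    intro Z hZ hcard M hM
    have hit := hitB_hits T U hJ' hh' Z hZ
    have h1 := T.hit2 _ hit
    rw [Fintype.card_prod] at hcard
    -- the fibres of `Z`
    have hfib : ∀ p ∈ hitB U Z, Fintype.card J' ≤ (fib Z p).card := by
      intro p hp
      rw [hitB, mem_filter] at hp
      exact U.hit2 _ hp.2
    have hsumZ : ∑ p ∈ hitB U Z, (fib Z p).card + ∑ p ∈ (hitB U Z)ᶜ, (fib Z p).card = Z.card := by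
      rw [card_eq_sum_fib Z]
      exact sum_add_sum_compl _ _
    have hlow : (hitB U Z).card * Fintype.card J' ≤ ∑ p ∈ hitB U Z, (fib Z p).card := by
      rw [← smul_eq_mul, ← sum_const]
      exact sum_le_sum hfib
    have hZ1 : (hitB U Z).card = Fintype.card J := by
      apply le_antisymm _ h1
      by_contra hlt
      push Not at hlt
      have : (Fintype.card J + 1) * Fintype.card J' ≤ (hitB U Z).card * Fintype.card J' :=
        Nat.mul_le_mul_right _ hlt
      have e : (Fintype.card J + 1) * Fintype.card J' =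
        Fintype.card J * Fintype.card J' + Fintype.card J' := by ring
      omega
    rw [hZ1] at hlow
    have hsum1 : ∑ p ∈ hitB U Z, (fib Z p).card = Fintype.card J * Fintype.card J' := by omega
    have hsum2 : ∑ p ∈ (hitB U Z)ᶜ, (fib Z p).card = 0 := by omega
    have hfib1 : ∀ p ∈ hitB U Z, (fib Z p).card = Fintype.card J' := by
      have : ∑ p ∈ hitB U Z, Fintype.card J' = ∑ p ∈ hitB U Z, (fib Z p).card := by
        rw [sum_const, smul_eq_mul, hZ1, hsum1]
      intro p hp
      exact ((sum_eq_sum_iff_of_le hfib).1 this p hp).symm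
    have hfib2 : ∀ p ∉ hitB U Z, fib Z p = ∅ := by
      intro p hp
      rw [sum_eq_zero_iff] at hsum2
      exact card_eq_zero.1 (hsum2 p (mem_compl.2 hp))
    -- the points over which `M` is large
    set F : Finset P := univ.filter
      (fun p => ∀ s', (∀ j', U.sg s' j' ∉ fib Z p) → ∃ j', U.sg s' j' ∈ fib M p) with hF
    have hFhit : ∀ s, ∃ j, T.sg s j ∈ F := by
      intro s
      by_contra hno
      push Not at hno
      have : ∀ j, ∃ s', (∀ j', U.sg s' j' ∉ fib Z (T.sg s j)) ∧
          ∀ j', U.sg s' j' ∉ fib M (T.sg s j) := by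
        intro j
        have := hno j
        rw [hF, mem_filter] at this
        push Not at this
        exact this (mem_univ _)
      choose f hf1 hf2 using this
      obtain ⟨⟨j, j'⟩, hj⟩ := hM (s, f) (by
        rintro ⟨j, j'⟩ hmem
        exact hf1 j j' ((mem_fib _ _ _).2 hmem))
      exact hf2 j j' ((mem_fib _ _ _).2 hj)
    have hF1 : h ≤ F.card := T.hit1 F hFhit
    have hF2 : h ≤ (F \ hitB U Z).card + 1 := by
      apply T.hit3 (hitB U Z) hit hZ1
      intro s hs
      obtain ⟨j, hj⟩ := hFhit s
      exact ⟨j, mem_sdiff.2 ⟨hj, hs j⟩⟩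
    have hM1 : ∀ p ∈ F \ hitB U Z, h' ≤ (fib M p).card := by
      intro p hp
      rw [mem_sdiff, hF, mem_filter] at hp
      apply U.hit1
      intro s'
      apply hp.1.2 s'
      intro j'
      rw [hfib2 p hp.2]
      simp
    have hM2 : ∀ p ∈ F ∩ hitB U Z, h' ≤ (fib M p).card + 1 := by
      intro p hp
      rw [mem_inter, hF, mem_filter] at hp
      have hp2 := hp.2
      rw [hitB, mem_filter] at hp2
      exact U.hit3 (fib Z p) hp2.2 (hfib1 p hp.2) (fib M p) hp.1.2
    have hsumM : ∑ p ∈ F \ hitB U Z, (fib M p).card + ∑ p ∈ F ∩ hitB U Z, (fib M p).card ≤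
        M.card := by
      rw [add_comm, sum_inter_add_sum_sdiff]
      exact sum_fib_le M F
    have hs1 : (F \ hitB U Z).card * h' ≤ ∑ p ∈ F \ hitB U Z, (fib M p).card := by
      rw [← smul_eq_mul, ← sum_const]
      exact sum_le_sum hM1
    have hcardF : (F \ hitB U Z).card + (F ∩ hitB U Z).card = F.card :=
      card_sdiff_add_card_inter F (hitB U Z)
    by_cases hcase : h ≤ (F \ hitB U Z).card
    · have := Nat.mul_le_mul_right h' hcase
      omega
    · push Not at hcase
      have hne : (F ∩ hitB U Z).Nonempty := by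
        rw [← card_pos]
        omega
      obtain ⟨p, hp⟩ := hne
      have h3 := hM2 p hp
      have h4 : (fib M p).card ≤ ∑ p ∈ F ∩ hitB U Z, (fib M p).card :=
        single_le_sum (f := fun p => (fib M p).card) (fun _ _ => Nat.zero_le _) hp
      have h5 : h = (F \ hitB U Z).card + 1 := by omega
      have h6 : h * h' = (F \ hitB U Z).card * h' + h' := by rw [h5]; ring
      omega
  cov := by
    rintro ⟨p, p'⟩
    obtain ⟨x, hx⟩ := T.cov p
    obtain ⟨x', hx'⟩ := U.cov p'
    exact ⟨(x, fun _ => x'), hx, hx'⟩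
  large := by
    rintro ⟨j, j'⟩
    refine (Nat.mul_le_mul (T.large j) (U.large j')).trans ?_
    rw [← card_product]
    apply card_le_card
    intro z hz
    simpa [Prod.ext_iff] using hz
  comp0 := by
    rintro ⟨x, g⟩
    simp only [T.comp0, U.comp0]
  bal := by
    rintro ⟨x, g⟩ ⟨j, j'⟩
    have key : ∀ i i', (univ.filter (fun p : P × P' =>
        (T.bl (T.comp x i) p.1 ∧ U.bl (U.comp (g p.1) i') p.2) ∧
          (T.side p.1, U.side p.2) = (j, j'))).card =
        ∑ p ∈ univ.filter (fun p => T.bl (T.comp x i) p ∧ T.side p = j),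
          (univ.filter (fun p' => U.bl (U.comp (g p) i') p' ∧ U.side p' = j')).card := by
      intro i i'
      rw [card_eq_sum_fib, sum_filter]
      apply sum_congr rfl
      intro p _
      split_ifs with hp
      · congr 1
        ext p'
        simp [fib, hp.1, hp.2]
      · rw [card_eq_zero]
        ext p'
        simp only [fib, mem_filter, mem_univ, true_and, Prod.mk.injEq, notMem_empty, iff_false]
        tauto
    rw [Fintype.sum_prod_type]
    calc ∑ i, ∑ i', _ = ∑ i, ∑ i', ∑ p ∈ univ.filter (fun p => T.bl (T.comp x i) p ∧ T.side p = j),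
          (univ.filter (fun p' => U.bl (U.comp (g p) i') p' ∧ U.side p' = j')).card := by
          apply sum_congr rfl
          intro i _
          apply sum_congr rfl
          intro i' _
          convert key i i'
      _ = ∑ i, ∑ p ∈ univ.filter (fun p => T.bl (T.comp x i) p ∧ T.side p = j), m' := by
          apply sum_congr rfl
          intro i _
          rw [sum_comm]
          apply sum_congr rfl
          intro p _
          exact U.bal (g p) j'
      _ = m * m' := by
          simp only [sum_const, smul_eq_mul]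
          rw [← sum_mul, T.bal x j]
  count := by
    rw [Fintype.card_prod, Fintype.card_prod]
    have h1 := T.count
    have h2 := U.count
    calc Fintype.card J * Fintype.card J' * (m * m') =
        (Fintype.card J * m) * (Fintype.card J' * m') := by ring
      _ = (Fintype.card I * h) * (Fintype.card I' * h') := by rw [h1, h2]
      _ = _ := by ring

theorem Good.mul {k h q k' h' q' : ℕ} (h1 : Good k h q) (h2 : Good k' h' q') (hk' : 0 < k')
    (hh' : 0 < h') : Good (k * k') (h * h') (q * q') := by
  obtain ⟨J, P, S, X, I, _, _, _, m, hJ, ⟨T⟩⟩ := h1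
  obtain ⟨J', P', S', X', I', _, _, _, m', hJ', ⟨U⟩⟩ := h2
  refine ⟨J × J', P × P', S × (J → S'), X × (P → X'), I × I', inferInstance, inferInstance,
    inferInstance, m * m', ?_, ⟨T.mul U (by omega) hh'⟩⟩
  rw [Fintype.card_prod, hJ, hJ']

/-- Powers of a system. -/
theorem Good.pow {k h q : ℕ} (h1 : Good k h q) (hk : 0 < k) (hh : 0 < h) (n : ℕ) :
    Good (k ^ (n + 1)) (h ^ (n + 1)) (q ^ (n + 1)) := by
  induction n with
  | zero => simpa using h1
  | succ n ih =>
    rw [pow_succ k, pow_succ h, pow_succ q]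
    exact ih.mul h1 hk hh

end Pool.Agent.GL
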